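import Pool.Agent.Lib.MP_455d73_gt.CS.Chart

/-!
TASK B2c (medium): chains of small steps.

Let `γ t = r(t) • ((1 - t) • x.1 + t • y.1)` for `t ∈ [0, 1]`, where `v(t) = (1 - t) • x.1 + t • y.1` satisfies
`lor (v t) (v t) = -(1-t)^2 - t^2 + 2 t (1-t) lor x y < 0` (`Hyp.lor_lt`) and `0 < (v t).2`, and `r(t) = (√(- lor (v t) (v t)))⁻¹`:
a point of `Hyp n`, continuous in `t`, `γ 0 = x`, `γ 1 = y`. The function `F (s, t) = - lor (γ s) (γ t)` is continuous on
`[0, 1] × [0, 1]`, so uniformly continuous (compact), and `F (s, s) = 1`. So there is `m` with `F (i / m, (i+1) / m) < 1 + δ`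
for all `i < m`; put `c i = γ (min (i / m) 1)`. (It is convenient to define `γ` on all of `ℝ` by using `max 0 (min t 1)`.)
-/

set_option autoImplicit false

open Finset
open scoped Classical

namespace Pool.Agent.MP_455d73_gt.CS

variable {n : ℕ}

private noncomputable def B2c_v (x y : Hyp n) (t : Set.Icc (0 : ℝ) 1) : Mk n :=
  (1 - (t : ℝ)) • x.1 + (t : ℝ) • y.1

private theorem B2c_neg (x y : Hyp n) (t : Set.Icc (0 : ℝ) 1) :
    lor (B2c_v x y t) (B2c_v x y t) < 0 := by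
  obtain ⟨t, h0, h1⟩ := t
  have hxy := Hyp.lor_lt x y
  unfold B2c_v
  simp only [lor_add_left, lor_add_right, lor_smul_left, lor_smul_right, Hyp.lor_self]
  rw [lor_comm y.1 x.1]
  have h2 : 0 ≤ t * (1 - t) := mul_nonneg h0 (by linarith)
  have h3 : t * (1 - t) * lor x.1 y.1 ≤ 0 := mul_nonpos_of_nonneg_of_nonpos h2 hxy.le
  nlinarith [sq_nonneg (1 - t - t), sq_nonneg t, sq_nonneg (1 - t)]

private theorem B2c_pos (x y : Hyp n) (t : Set.Icc (0 : ℝ) 1) : 0 < (B2c_v x y t).2 := by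
  obtain ⟨t, h0, h1⟩ := t
  have hx := x.2.2
  have hy := y.2.2
  unfold B2c_v
  simp only [Prod.snd_add, Prod.smul_snd, smul_eq_mul]
  rcases h0.lt_or_eq with h | h
  · have h2 : 0 ≤ (1 - t) * x.1.2 := mul_nonneg (by linarith) hx.le
    have h3 : 0 < t * y.1.2 := mul_pos h hy
    linarith
  · rw [← h]
    linarith

private theorem B2c_mem (x y : Hyp n) (t : Set.Icc (0 : ℝ) 1) :
    lor ((√(- lor (B2c_v x y t) (B2c_v x y t)))⁻¹ • B2c_v x y t)
      ((√(- lor (B2c_v x y t) (B2c_v x y t)))⁻¹ • B2c_v x y t) = -1 ∧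
    0 < ((√(- lor (B2c_v x y t) (B2c_v x y t)))⁻¹ • B2c_v x y t).2 := by
  have h0 : 0 < - lor (B2c_v x y t) (B2c_v x y t) := by
    have := B2c_neg x y t
    linarith
  have h1 : 0 < √(- lor (B2c_v x y t) (B2c_v x y t)) := Real.sqrt_pos.mpr h0
  constructor
  · rw [lor_smul_left, lor_smul_right]
    have h2 : lor (B2c_v x y t) (B2c_v x y t) = - (√(- lor (B2c_v x y t) (B2c_v x y t)) ^ 2) := by
      rw [Real.sq_sqrt h0.le]
      ring
    generalize √(- lor (B2c_v x y t) (B2c_v x y t)) = r at h1 h2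
    rw [h2]
    field_simp
  · simp only [Prod.smul_snd, smul_eq_mul]
    exact mul_pos (inv_pos.mpr h1) (B2c_pos x y t)

private noncomputable def B2c_c (x y : Hyp n) (t : Set.Icc (0 : ℝ) 1) : Hyp n := ⟨_, B2c_mem x y t⟩

private theorem B2c_cont_v (x y : Hyp n) : Continuous (B2c_v x y) := by
  unfold B2c_v
  fun_prop

private theorem B2c_cont (x y : Hyp n) : Continuous (fun t => (B2c_c x y t).1) := by
  have hv := B2c_cont_v x y
  have h1 : Continuous fun t => - lor (B2c_v x y t) (B2c_v x y t) :=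
    (continuous_lor.comp (hv.prodMk hv)).neg
  refine Continuous.smul (Continuous.inv₀ (Real.continuous_sqrt.comp h1) fun t => ?_) hv
  have h0 : 0 < - lor (B2c_v x y t) (B2c_v x y t) := by
    have := B2c_neg x y t
    linarith
  exact (Real.sqrt_pos.mpr h0).ne'

private theorem B2c_zero (x y : Hyp n) : B2c_c x y ⟨0, by norm_num⟩ = x := by
  apply Subtype.ext
  have hv : B2c_v x y ⟨0, by norm_num⟩ = x.1 := by
    unfold B2c_v
    simp
  show (√(- lor (B2c_v x y ⟨0, by norm_num⟩) (B2c_v x y ⟨0, by norm_num⟩)))⁻¹ •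
    B2c_v x y ⟨0, by norm_num⟩ = x.1
  rw [hv, Hyp.lor_self]
  simp

private theorem B2c_one (x y : Hyp n) : B2c_c x y ⟨1, by norm_num⟩ = y := by
  apply Subtype.ext
  have hv : B2c_v x y ⟨1, by norm_num⟩ = y.1 := by
    unfold B2c_v
    simp
  show (√(- lor (B2c_v x y ⟨1, by norm_num⟩) (B2c_v x y ⟨1, by norm_num⟩)))⁻¹ •
    B2c_v x y ⟨1, by norm_num⟩ = y.1
  rw [hv, Hyp.lor_self]
  simp

theorem B2c_chain (δ : ℝ) (hδ : 0 < δ) (x y : Hyp n) :
    ∃ (m : ℕ) (c : ℕ → Hyp n), c 0 = x ∧ c m = y ∧ ∀ i < m, - lor (c i).1 (c (i + 1)).1 < 1 + δ := by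
  have hF : Continuous (fun p : Set.Icc (0 : ℝ) 1 × Set.Icc (0 : ℝ) 1 =>
      - lor (B2c_c x y p.1).1 (B2c_c x y p.2).1) := by
    have h := B2c_cont x y
    exact (continuous_lor.comp ((h.comp continuous_fst).prodMk (h.comp continuous_snd))).neg
  have hU := CompactSpace.uniformContinuous_of_continuous hF
  rw [Metric.uniformContinuous_iff] at hU
  obtain ⟨η, hη, hU⟩ := hU δ hδ
  obtain ⟨k, hk⟩ := exists_nat_one_div_lt hη
  have hm : (0 : ℝ) < (k : ℝ) + 1 := by positivity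
  refine ⟨k + 1, fun i => B2c_c x y (Set.projIcc 0 1 zero_le_one ((i : ℝ) / (k + 1))), ?_, ?_, ?_⟩
  · have h : Set.projIcc (0 : ℝ) 1 zero_le_one (((0 : ℕ) : ℝ) / (k + 1)) = ⟨0, by norm_num⟩ := by
      rw [Nat.cast_zero, zero_div]
      exact Set.projIcc_of_mem zero_le_one _
    simp only [h]
    exact B2c_zero x y
  · have h : Set.projIcc (0 : ℝ) 1 zero_le_one (((k + 1 : ℕ) : ℝ) / (k + 1)) = ⟨1, by norm_num⟩ := by
      rw [Nat.cast_add, Nat.cast_one, div_self hm.ne']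
      exact Set.projIcc_of_mem zero_le_one _
    simp only [h]
    exact B2c_one x y
  · intro i hi
    have h1 : (i : ℝ) / (k + 1) ∈ Set.Icc (0 : ℝ) 1 := by
      constructor
      · positivity
      · rw [div_le_one hm]
        have : (i : ℝ) + 1 ≤ ((k + 1 : ℕ) : ℝ) := by exact_mod_cast hi
        push_cast at this
        linarith
    have h2 : ((i + 1 : ℕ) : ℝ) / (k + 1) ∈ Set.Icc (0 : ℝ) 1 := by
      constructor
      · positivity
      · rw [div_le_one hm]
        have : ((i + 1 : ℕ) : ℝ) ≤ ((k + 1 : ℕ) : ℝ) := by exact_mod_cast hi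
        push_cast at this ⊢
        linarith
    simp only [Set.projIcc_of_mem zero_le_one h1, Set.projIcc_of_mem zero_le_one h2]
    have h3 := @hU (⟨(i : ℝ) / (k + 1), h1⟩, ⟨((i + 1 : ℕ) : ℝ) / (k + 1), h2⟩)
      (⟨(i : ℝ) / (k + 1), h1⟩, ⟨(i : ℝ) / (k + 1), h1⟩) (by
        rw [Prod.dist_eq, dist_self, max_eq_right dist_nonneg, Subtype.dist_eq, Real.dist_eq]
        have h4 : ((i + 1 : ℕ) : ℝ) / (k + 1) - (i : ℝ) / (k + 1) = 1 / (k + 1) := by
          push_cast
          ring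
        rw [h4, abs_of_pos (by positivity)]
        exact hk)
    rw [Real.dist_eq] at h3
    have h5 := (abs_lt.mp h3).2
    simp only [Hyp.lor_self] at h5
    linarith

end Pool.Agent.MP_455d73_gt.CS
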