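import Pool.Agent.Lib.MP_455d73_gt.Mg.G004

/-!
B6: the stabiliser of a point of a finite set is a uniform lattice.
-/

set_option autoImplicit false

open Finset
open scoped Classical

namespace Pool.Agent.MP_455d73_gt.CS

variable {n : ℕ} {I S : Type}

theorem CX.stab_uniform [Finite I] [Finite S] (R : CX n I) (σ : I → Equiv.Perm S) (s₀ : S) :
    Uniform (R.stab σ s₀) := by
  have hG : R.stab σ s₀ ≤ R.G := by
    rintro g ⟨π, h, -⟩
    exact R.fst_mem σ g π h
  refine ⟨hG.trans R.G_isom, ?_, ?_⟩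
  · intro K hK
    refine (R.propdisc K hK).subset ?_
    rintro g ⟨hg, h⟩
    exact ⟨hG hg, h⟩
  · let Q : S → Prop := fun c => ∃ g π, (g, π) ∈ R.GS σ ∧ π c = s₀
    let G : S → Equiv.Perm (Hyp n) := fun c => if h : Q c then h.choose else 1
    have hQ : ∀ c, Q c → ∃ π, (G c, π) ∈ R.GS σ ∧ π c = s₀ := by
      intro c hc
      have : G c = hc.choose := dif_pos hc
      rw [this]
      exact hc.choose_spec
    have hGc : ∀ c, Continuous (G c) := by
      intro c
      by_cases hc : Q c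
      · obtain ⟨π, h, -⟩ := hQ c hc
        exact R.G_cont _ (R.fst_mem σ _ π h)
      · have : G c = 1 := dif_neg hc
        rw [this]
        exact continuous_id
    refine ⟨⋃ c, G c '' R.P, ?_, ?_⟩
    · exact isCompact_iUnion (fun c => (show IsCompact R.P from R.cpt).image (hGc c))
    · intro x
      obtain ⟨h, hh, hP⟩ := R.cover x
      obtain ⟨π, hπ⟩ := R.exists_perm σ h⁻¹ (R.G.inv_mem hh)
      have hc : Q (π⁻¹ s₀) := ⟨h⁻¹, π, hπ, by simp⟩
      obtain ⟨π', h', h0⟩ := hQ _ hc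
      refine ⟨G (π⁻¹ s₀) * h, ⟨π' * π⁻¹, ?_, ?_⟩, ?_⟩
      · have h1 := (R.GS σ).mul_mem h' ((R.GS σ).inv_mem hπ)
        have h2 : (G (π⁻¹ s₀), π') * (h⁻¹, π)⁻¹ = (G (π⁻¹ s₀) * h, π' * π⁻¹) := by
          ext1 <;> simp
        rw [h2] at h1
        exact h1
      · rw [Equiv.Perm.mul_apply, h0]
      · refine Set.mem_iUnion.mpr ⟨π⁻¹ s₀, h x, hP, ?_⟩
        rw [Equiv.Perm.mul_apply]

end Pool.Agent.MP_455d73_gt.CS
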