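import Pool.Agent.Lib.MP_455d73_gt.Mg.G020

/-!
TASK T2b (easy, kernel computations): the labels separate the orbits. Closed statements by `decide +kernel` as in T1a. For `lab_dep`
write the disjunction over `i` as `∃ i ∈ [0, 1, 2, 3, 4, 5, 6], …`.
-/

set_option autoImplicit false

namespace Pool.Agent.MP_455d73_gt.CS

open K

private theorem T2b_1 : ∀ κ : Bool, ∀ a ∈ faceL, ∀ c < 200, (a.testBit 5 = true → isIn c = false ∧ isOut c = false) →
    fac κ (lab κ a c) = a := by
  decide +kernel

private theorem T2b_2 : ∀ κ : Bool, ∀ a ∈ faceL, ∀ c < 200, (a.testBit 5 = true → isIn c = false ∧ isOut c = false) →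
    c = rep κ (lab κ a c) ∨ ∃ i ∈ [0, 1, 2, 3, 4, 5, 6], a.testBit i = true ∧ dep κ a (rr κ i c) < dep κ a c := by
  decide +kernel

/-- The label determines the face. -/
theorem lab_fac (κ : Bool) (a c : ℕ) (ha : a ∈ faceL) (hc : c < 200)
    (hp : a.testBit 5 = true → isIn c = false ∧ isOut c = false) : fac κ (lab κ a c) = a := by
  exact T2b_1 κ a ha c hc hp

/-- The chamber is the representative of its label, or it has a neighbour closer to the representative. -/
theorem lab_dep (κ : Bool) (a c : ℕ) (ha : a ∈ faceL) (hc : c < 200)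
    (hp : a.testBit 5 = true → isIn c = false ∧ isOut c = false) :
    c = rep κ (lab κ a c) ∨ ∃ i < 7, a.testBit i = true ∧ dep κ a (rr κ i c) < dep κ a c := by
  rcases T2b_2 κ a ha c hc hp with h | ⟨i, hi, h1, h2⟩
  · exact Or.inl h
  · refine Or.inr ⟨i, ?_, h1, h2⟩
    have h3 : ∀ j ∈ [0, 1, 2, 3, 4, 5, 6], j < 7 := by decide
    exact h3 i hi

end Pool.Agent.MP_455d73_gt.CS
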