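import Pool.Agent.Lib.MP_455d73_gt.Mg.G022
import Pool.Agent.Lib.MP_455d73_gt.Mg.G020
import Pool.Agent.Lib.MP_455d73_gt.CS.T2b

/-!
TASK Cd2 (medium-hard): the codes separate the faces.

`orb (sg w) (fs a)` is an equivalence relation (`y ∈ orb σ A x`: some `π ∈ closure (σ '' A)` maps `x` to `y`), and `sg w i x ∈ orb (sg w) (fs a) x` if `a.testBit i`.
(A) In a bead: let `b` be a face, `x = (k, c)`, `x' = (k, c')`, both `b.testBit 5 = true → c, c'` in no port, `lab κ b c = lab κ b' c'` (`κ = kd w k`): then `b = b'`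
(`lab_fac`), and `x' ∈ orb (fs b) x`: by strong induction on `dep κ b c`, `x ~ (k, rep κ (lab κ b c))` (`lab_dep`; the neighbour is `sgf w i x` since for `i = 5`
the chamber is in no port; `lab_rr` keeps the label; `rr_lt`, and `rr5_port`/`rr_port` keep the condition on the ports; a mask `b` with the bit `5` has only bits
among `1, …, 5` by `face5`).
(B) Normal form: every `y = (k, c)` with `a.testBit 5`, `c` in a port, has a partner `y'` with the same code and in the same orbit, so that we may assume for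
`k + 1 < w.length` or `isOut c` that `isOut c` holds: if `isIn c` and `k ≥ 1` take `y' = sg w 5 y = (k - 1, gi r c)` (`code_sgf`). So there are four types of codes:
 (i) `(k, l)`, `l < 2393`: `c` in no port, or `a.testBit 5 = false` (`lab_lt`); (ii) `(k, 10000 + l)`, `isOut c`, `k + 1 < w.length`, `l = lab true (a - 32) c < 52`
 (`lab_out`); (iii) `(k, 20000 + l)`, `isOut c`, `k + 1 = w.length`, `l = min (lab c) (lab (fo c))`; (iv) `(0, 30000 + l)`, `k = 0`, `isIn c`, `l = min …` (`lab_in`: `< 104`).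
 The ranges are disjoint, so both sides of the equation are of the same type.
 (i): (A). (ii): `b = a - 32`, `b' = a' - 32` are faces without the bit `5` (`face5`), `lab true b c = lab true b' c'`; `lab (kd w k) b c = lab true b c` (`lab_out`), so (A) gives
 `b = b'` (so `a = a'`) and `(k, c') ∈ orb (fs b) (k, c) ⊆ orb (fs a) (k, c)`. (iii): `min (lab b c) (lab b (fo c)) = min (lab b' c') (lab b' (fo c'))`: one of the
 two labels on the left equals one on the right; `(k, fo c) = sg w 5 (k, c)` is in the orbit of `(k, c)`, and the same for `c'`; conclude as in (ii). (iv): the same with `fi`.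
-/

set_option autoImplicit false

namespace Pool.Agent.MP_455d73_gt.CS

open K

private theorem Cd2_bits : ∀ a ∈ faceL, a.testBit 5 = true → ∀ i < 7, a.testBit i = true →
    i = 5 ∨ (1 ≤ i ∧ i ≤ 4) := by decide +kernel

private theorem Cd2_sub : ∀ a ∈ faceL, a.testBit 5 = true → ∀ i < 7, (a - 32).testBit i = true →
    a.testBit i = true := by decide +kernel

private theorem Cd2_refl (w : List (Bool × Bool)) (a : ℕ) (x : Ch w) : x ∈ orb (sg w) (fs a) x :=
  ⟨1, Subgroup.one_mem _, rfl⟩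

private theorem Cd2_trans (w : List (Bool × Bool)) (a : ℕ) (x y z : Ch w) (h : y ∈ orb (sg w) (fs a) x)
    (h' : z ∈ orb (sg w) (fs a) y) : z ∈ orb (sg w) (fs a) x := by
  obtain ⟨p, hp, hpx⟩ := h
  obtain ⟨q, hq, hqy⟩ := h'
  refine ⟨q * p, Subgroup.mul_mem _ hq hp, ?_⟩
  rw [Equiv.Perm.mul_apply, hpx, hqy]

private theorem Cd2_symm (w : List (Bool × Bool)) (a : ℕ) (x y : Ch w) (h : y ∈ orb (sg w) (fs a) x) :
    x ∈ orb (sg w) (fs a) y := by
  obtain ⟨p, hp, hpx⟩ := h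
  refine ⟨p⁻¹, Subgroup.inv_mem _ hp, ?_⟩
  rw [← hpx]
  exact Equiv.symm_apply_apply p x

private theorem Cd2_step (w : List (Bool × Bool)) (a : ℕ) (i : Fin 7) (hi : a.testBit i = true) (x : Ch w) :
    sg w i x ∈ orb (sg w) (fs a) x :=
  ⟨sg w i, Subgroup.subset_closure ⟨i, hi, rfl⟩, rfl⟩

private theorem Cd2_mono (w : List (Bool × Bool)) (a b : ℕ) (hab : ∀ i < 7, b.testBit i = true → a.testBit i = true)
    (x y : Ch w) (h : y ∈ orb (sg w) (fs b) x) : y ∈ orb (sg w) (fs a) x := by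
  obtain ⟨p, hp, hpx⟩ := h
  refine ⟨p, Subgroup.closure_mono (Set.image_mono ?_) hp, hpx⟩
  intro i hi
  exact hab i i.2 hi

private theorem Cd2_rep (w : List (Bool × Bool)) (b : ℕ) (hb : b ∈ faceL) (n : ℕ) : ∀ x : Ch w,
    dep (kd w x.1.1) b x.1.2 = n → (b.testBit 5 = true → isIn x.1.2 = false ∧ isOut x.1.2 = false) →
    ∃ z : Ch w, z.1 = (x.1.1, rep (kd w x.1.1) (lab (kd w x.1.1) b x.1.2)) ∧ z ∈ orb (sg w) (fs b) x := by
  induction n using Nat.strong_induction_on with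
  | _ n ih =>
    intro x hx hp
    obtain ⟨hk, hc⟩ := x.2
    rcases lab_dep (kd w x.1.1) b x.1.2 hb hc hp with h | ⟨i, hi, hbi, hlt⟩
    · refine ⟨x, ?_, Cd2_refl w b x⟩
      exact Prod.ext rfl h
    · have hs : sgf w i x.1 = (x.1.1, rr (kd w x.1.1) i x.1.2) := by
        unfold sgf
        by_cases h5 : i = 5
        · subst h5
          obtain ⟨h1, h2⟩ := hp hbi
          simp [h1, h2]
        · simp [h5]
      have hp5 : i = 5 → isIn x.1.2 = false ∧ isOut x.1.2 = false := by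
        intro h5
        subst h5
        exact hp hbi
      have hl := lab_rr (kd w x.1.1) b i x.1.2 hb hi hbi hc hp
      have hsx : (sg w ⟨i, hi⟩ x).1 = (x.1.1, rr (kd w x.1.1) i x.1.2) := by
        rw [sg_coe]
        exact hs
      have h1 : (sg w ⟨i, hi⟩ x).1.1 = x.1.1 := by rw [hsx]
      have h2 : (sg w ⟨i, hi⟩ x).1.2 = rr (kd w x.1.1) i x.1.2 := by rw [hsx]
      have hpp : b.testBit 5 = true → isIn (sg w ⟨i, hi⟩ x).1.2 = false ∧ isOut (sg w ⟨i, hi⟩ x).1.2 = false := by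
        intro h5
        rw [h2]
        rcases Cd2_bits b hb h5 i hi hbi with h | ⟨h3, h4⟩
        · subst h
          exact rr5_port (kd w x.1.1) x.1.2 hc (hp h5)
        · obtain ⟨e1, e2⟩ := rr_port (kd w x.1.1) i x.1.2 h3 h4 hc
          rw [e1, e2]
          exact hp h5
      obtain ⟨z, hz, hzo⟩ := ih _ (by rw [← hx]; exact hlt) (sg w ⟨i, hi⟩ x) (by rw [h1, h2]) hpp
      refine ⟨z, ?_, Cd2_trans w b _ _ _ (Cd2_step w b ⟨i, hi⟩ hbi x) hzo⟩
      rw [hz, h1, h2, hl]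

private theorem Cd2_A (w : List (Bool × Bool)) (b b' : ℕ) (hb : b ∈ faceL) (hb' : b' ∈ faceL) (x y : Ch w)
    (hxy : x.1.1 = y.1.1) (hp : b.testBit 5 = true → isIn x.1.2 = false ∧ isOut x.1.2 = false)
    (hp' : b'.testBit 5 = true → isIn y.1.2 = false ∧ isOut y.1.2 = false)
    (hl : lab (kd w x.1.1) b x.1.2 = lab (kd w x.1.1) b' y.1.2) : b = b' ∧ y ∈ orb (sg w) (fs b) x := by
  have hbb : b = b' := by
    rw [← lab_fac (kd w x.1.1) b x.1.2 hb x.2.2 hp, hl, lab_fac (kd w x.1.1) b' y.1.2 hb' y.2.2 hp']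
  subst hbb
  refine ⟨rfl, ?_⟩
  obtain ⟨z, hz, hzo⟩ := Cd2_rep w b hb _ x rfl hp
  obtain ⟨z', hz', hzo'⟩ := Cd2_rep w b hb _ y rfl hp'
  have : z = z' := by
    apply Subtype.ext
    rw [hz, hz', ← hxy, hl]
  subst this
  exact Cd2_trans w b _ _ _ hzo (Cd2_symm w b _ _ hzo')

/-- The same with a face in the wall `5` and chambers in a port. -/
private theorem Cd2_B (w : List (Bool × Bool)) (a a' : ℕ) (ha : a ∈ faceL) (ha' : a' ∈ faceL)
    (h5 : a.testBit 5 = true) (h5' : a'.testBit 5 = true) (x y : Ch w)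
    (hxy : x.1.1 = y.1.1)
    (hk : ∀ κ : Bool, lab κ (a - 32) x.1.2 = lab true (a - 32) x.1.2)
    (hk' : ∀ κ : Bool, lab κ (a' - 32) y.1.2 = lab true (a' - 32) y.1.2)
    (hl : lab true (a - 32) x.1.2 = lab true (a' - 32) y.1.2) : a = a' ∧ y ∈ orb (sg w) (fs a) x := by
  obtain ⟨f1, f2, f3, f4, f5⟩ := face5 a ha h5
  obtain ⟨g1, g2, g3, g4, g5⟩ := face5 a' ha' h5'
  have hA := Cd2_A w (a - 32) (a' - 32) f2 g2 x y hxy (by rw [f3]; intro h; cases h) (by rw [g3]; intro h; cases h)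
    (by rw [hk, hk', hl])
  refine ⟨by omega, Cd2_mono w a (a - 32) (Cd2_sub a ha h5) _ _ hA.2⟩

private theorem Cd2_kout (a : ℕ) (ha : a ∈ faceL) (h5 : a.testBit 5 = true) (c : ℕ) (hc : c < 200)
    (h : isOut c = true) : (∀ κ : Bool, lab κ (a - 32) c = lab true (a - 32) c) ∧ lab true (a - 32) c < 104 := by
  obtain ⟨f1, f2, f3, f4, f5⟩ := face5 a ha h5
  refine ⟨fun κ => (lab_out κ (a - 32) c f2 f4 f3 hc h).1, ?_⟩
  have := (lab_out true (a - 32) c f2 f4 f3 hc h).2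
  omega

private theorem Cd2_kin (a : ℕ) (ha : a ∈ faceL) (h5 : a.testBit 5 = true) (c : ℕ) (hc : c < 200)
    (h : isIn c = true) : (∀ κ : Bool, lab κ (a - 32) c = lab true (a - 32) c) ∧ lab true (a - 32) c < 104 := by
  obtain ⟨f1, f2, f3, f4, f5⟩ := face5 a ha h5
  exact ⟨fun κ => (lab_in κ (a - 32) c f2 f4 f3 hc h).1, (lab_in true (a - 32) c f2 f4 f3 hc h).2.2⟩

/-- The normal forms of a chamber. -/
private theorem Cd2_nf (w : List (Bool × Bool)) (a : ℕ) (ha : a ∈ faceL) (x : Ch w) :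
    ∃ z : Ch w, z ∈ orb (sg w) (fs a) x ∧ code w a z.1 = code w a x.1 ∧
      (((a.testBit 5 = true → isIn z.1.2 = false ∧ isOut z.1.2 = false) ∧
          code w a z.1 = (z.1.1, lab (kd w z.1.1) a z.1.2)) ∨
        (a.testBit 5 = true ∧ isOut z.1.2 = true ∧ code w a z.1 = (z.1.1, 10000 + lab true (a - 32) z.1.2)) ∨
        (a.testBit 5 = true ∧ isOut z.1.2 = true ∧ z.1.1 + 1 = w.length ∧
          code w a z.1 = (z.1.1, 20000 + mn (lab true (a - 32) z.1.2) (lab true (a - 32) (fo z.1.2)))) ∨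
        (a.testBit 5 = true ∧ isIn z.1.2 = true ∧ z.1.1 = 0 ∧
          code w a z.1 = (0, 30000 + mn (lab true (a - 32) z.1.2) (lab true (a - 32) (fi z.1.2))))) := by
  obtain ⟨hk, hc⟩ := x.2
  by_cases h5 : a.testBit 5 = true
  · by_cases ho : isOut x.1.2 = true
    · refine ⟨x, Cd2_refl w a x, rfl, Or.inr ?_⟩
      by_cases hn : x.1.1 + 1 < w.length
      · left
        refine ⟨h5, ho, ?_⟩
        unfold code
        rw [if_pos ⟨h5, ho⟩, if_pos hn]
      · right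
        left
        refine ⟨h5, ho, by omega, ?_⟩
        unfold code
        rw [if_pos ⟨h5, ho⟩, if_neg hn]
    · by_cases hi : isIn x.1.2 = true
      · by_cases h0 : x.1.1 = 0
        · refine ⟨x, Cd2_refl w a x, rfl, Or.inr (Or.inr (Or.inr ?_))⟩
          refine ⟨h5, hi, h0, ?_⟩
          unfold code
          rw [if_neg (by tauto), if_pos ⟨h5, hi⟩, if_pos h0]
        · have hs : (sg w 5 x).1 = (x.1.1 - 1, gi (rv w x.1.1) x.1.2) := by
            rw [sg_coe]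
            change sgf w 5 x.1 = _
            unfold sgf
            rw [if_neg (by tauto), if_pos ⟨rfl, hi⟩, if_neg h0]
          obtain ⟨g1, g2, g3⟩ := gi_spec (rv w x.1.1) x.1.2 hc hi
          have hcd : code w a (sg w 5 x).1 = code w a x.1 := by
            rw [sg_coe]
            exact code_sgf w a 5 ha (by norm_num) h5 x.1 x.2
          refine ⟨sg w 5 x, Cd2_step w a 5 h5 x, hcd, Or.inr (Or.inl ?_)⟩
          have e1 : (sg w 5 x).1.1 = x.1.1 - 1 := by rw [hs]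
          have e2 : (sg w 5 x).1.2 = gi (rv w x.1.1) x.1.2 := by rw [hs]
          have ho' : isOut (sg w 5 x).1.2 = true := by rw [e2]; exact g2
          refine ⟨h5, ho', ?_⟩
          unfold code
          rw [if_pos ⟨h5, ho'⟩, if_pos (by rw [e1]; omega)]
      · refine ⟨x, Cd2_refl w a x, rfl, Or.inl ⟨fun _ => ⟨by simpa using hi, by simpa using ho⟩, ?_⟩⟩
        unfold code
        rw [if_neg (by tauto), if_neg (by tauto)]
  · refine ⟨x, Cd2_refl w a x, rfl, Or.inl ⟨fun h => absurd h h5, ?_⟩⟩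
    unfold code
    rw [if_neg (by tauto), if_neg (by tauto)]

/-- The case of an end `out` or `in`: the fold `φ` is the wall `5`. -/
private theorem Cd2_fold (w : List (Bool × Bool)) (a a' : ℕ) (ha : a ∈ faceL) (ha' : a' ∈ faceL)
    (h5 : a.testBit 5 = true) (h5' : a'.testBit 5 = true) (x y : Ch w) (hxy : x.1.1 = y.1.1)
    (φ : ℕ → ℕ) (P : ℕ → Prop) (hx : P x.1.2) (hy : P y.1.2)
    (hφx : (sg w 5 x).1 = (x.1.1, φ x.1.2)) (hφy : (sg w 5 y).1 = (y.1.1, φ y.1.2))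
    (hφP : ∀ c < 200, P c → P (φ c))
    (hP : ∀ b ∈ faceL, b.testBit 5 = true → ∀ c < 200, P c → ∀ κ : Bool, lab κ (b - 32) c = lab true (b - 32) c)
    (hl : mn (lab true (a - 32) x.1.2) (lab true (a - 32) (φ x.1.2)) =
      mn (lab true (a' - 32) y.1.2) (lab true (a' - 32) (φ y.1.2))) : a = a' ∧ y ∈ orb (sg w) (fs a) x := by
  have ex1 : (sg w 5 x).1.1 = x.1.1 := by rw [hφx]
  have ex2 : (sg w 5 x).1.2 = φ x.1.2 := by rw [hφx]
  have ey1 : (sg w 5 y).1.1 = y.1.1 := by rw [hφy]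
  have ey2 : (sg w 5 y).1.2 = φ y.1.2 := by rw [hφy]
  have hX : ∃ u : Ch w, u ∈ orb (sg w) (fs a) x ∧ u.1.1 = x.1.1 ∧ P u.1.2 ∧
      mn (lab true (a - 32) x.1.2) (lab true (a - 32) (φ x.1.2)) = lab true (a - 32) u.1.2 := by
    rw [mn_eq]
    rcases min_choice (lab true (a - 32) x.1.2) (lab true (a - 32) (φ x.1.2)) with h | h
    · exact ⟨x, Cd2_refl w a x, rfl, hx, h⟩
    · refine ⟨sg w 5 x, Cd2_step w a 5 h5 x, ex1, ?_, ?_⟩
      · rw [ex2]
        exact hφP _ x.2.2 hx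
      · rw [h, ex2]
  have hY : ∃ u : Ch w, u ∈ orb (sg w) (fs a') y ∧ u.1.1 = y.1.1 ∧ P u.1.2 ∧
      mn (lab true (a' - 32) y.1.2) (lab true (a' - 32) (φ y.1.2)) = lab true (a' - 32) u.1.2 := by
    rw [mn_eq]
    rcases min_choice (lab true (a' - 32) y.1.2) (lab true (a' - 32) (φ y.1.2)) with h | h
    · exact ⟨y, Cd2_refl w a' y, rfl, hy, h⟩
    · refine ⟨sg w 5 y, Cd2_step w a' 5 h5' y, ey1, ?_, ?_⟩
      · rw [ey2]
        exact hφP _ y.2.2 hy
      · rw [h, ey2]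
  obtain ⟨u, hu, hu1, huP, hul⟩ := hX
  obtain ⟨v, hv, hv1, hvP, hvl⟩ := hY
  obtain ⟨haa, hvu⟩ := Cd2_B w a a' ha ha' h5 h5' u v (by rw [hu1, hv1, hxy])
    (hP a ha h5 _ u.2.2 huP) (hP a' ha' h5' _ v.2.2 hvP) (by rw [← hul, ← hvl, hl])
  subst haa
  exact ⟨rfl, Cd2_trans w a _ _ _ (Cd2_trans w a _ _ _ hu hvu) (Cd2_symm w a _ _ hv)⟩

private theorem Cd2_out5 (w : List (Bool × Bool)) (x : Ch w) (h : isOut x.1.2 = true) (hn : x.1.1 + 1 = w.length) :
    (sg w 5 x).1 = (x.1.1, fo x.1.2) := by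
  rw [sg_coe]
  change sgf w 5 x.1 = _
  unfold sgf
  rw [if_pos ⟨rfl, h⟩, if_neg (by omega)]

private theorem Cd2_in5 (w : List (Bool × Bool)) (x : Ch w) (h : isIn x.1.2 = true) (h0 : x.1.1 = 0) :
    (sg w 5 x).1 = (x.1.1, fi x.1.2) := by
  have ho := port_disj x.1.2 x.2.2 h
  rw [sg_coe]
  change sgf w 5 x.1 = _
  unfold sgf
  rw [if_neg (by rw [ho]; simp), if_pos ⟨rfl, h⟩, if_pos h0, h0]

private theorem Cd2_main (w : List (Bool × Bool)) (a a' : ℕ) (ha : a ∈ faceL) (ha' : a' ∈ faceL) (x y : Ch w)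
    (h : code w a x.1 = code w a' y.1)
    (hx : ((a.testBit 5 = true → isIn x.1.2 = false ∧ isOut x.1.2 = false) ∧
          code w a x.1 = (x.1.1, lab (kd w x.1.1) a x.1.2)) ∨
        (a.testBit 5 = true ∧ isOut x.1.2 = true ∧ code w a x.1 = (x.1.1, 10000 + lab true (a - 32) x.1.2)) ∨
        (a.testBit 5 = true ∧ isOut x.1.2 = true ∧ x.1.1 + 1 = w.length ∧
          code w a x.1 = (x.1.1, 20000 + mn (lab true (a - 32) x.1.2) (lab true (a - 32) (fo x.1.2)))) ∨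
        (a.testBit 5 = true ∧ isIn x.1.2 = true ∧ x.1.1 = 0 ∧
          code w a x.1 = (0, 30000 + mn (lab true (a - 32) x.1.2) (lab true (a - 32) (fi x.1.2)))))
    (hy : ((a'.testBit 5 = true → isIn y.1.2 = false ∧ isOut y.1.2 = false) ∧
          code w a' y.1 = (y.1.1, lab (kd w y.1.1) a' y.1.2)) ∨
        (a'.testBit 5 = true ∧ isOut y.1.2 = true ∧ code w a' y.1 = (y.1.1, 10000 + lab true (a' - 32) y.1.2)) ∨
        (a'.testBit 5 = true ∧ isOut y.1.2 = true ∧ y.1.1 + 1 = w.length ∧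
          code w a' y.1 = (y.1.1, 20000 + mn (lab true (a' - 32) y.1.2) (lab true (a' - 32) (fo y.1.2)))) ∨
        (a'.testBit 5 = true ∧ isIn y.1.2 = true ∧ y.1.1 = 0 ∧
          code w a' y.1 = (0, 30000 + mn (lab true (a' - 32) y.1.2) (lab true (a' - 32) (fi y.1.2))))) :
    a = a' ∧ y ∈ orb (sg w) (fs a) x := by
  have r1 : ∀ (b : ℕ) (u : Ch w), b ∈ faceL → (b.testBit 5 = true → isIn u.1.2 = false ∧ isOut u.1.2 = false) →
      lab (kd w u.1.1) b u.1.2 < 10000 := by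
    intro b u hb hp
    have := lab_lt (kd w u.1.1) b u.1.2 hb u.2.2 hp
    omega
  have r2 : ∀ (b : ℕ) (u : Ch w), b ∈ faceL → b.testBit 5 = true → isOut u.1.2 = true →
      lab true (b - 32) u.1.2 < 104 := fun b u hb h5 ho => (Cd2_kout b hb h5 _ u.2.2 ho).2
  have r3 : ∀ (b : ℕ) (u : Ch w), b ∈ faceL → b.testBit 5 = true → isOut u.1.2 = true →
      mn (lab true (b - 32) u.1.2) (lab true (b - 32) (fo u.1.2)) < 104 := by
    intro b u hb h5 ho
    rw [mn_eq]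
    exact lt_of_le_of_lt (min_le_left _ _) (r2 b u hb h5 ho)
  have r4 : ∀ (b : ℕ) (u : Ch w), b ∈ faceL → b.testBit 5 = true → isIn u.1.2 = true →
      mn (lab true (b - 32) u.1.2) (lab true (b - 32) (fi u.1.2)) < 104 := by
    intro b u hb h5 hi
    rw [mn_eq]
    exact lt_of_le_of_lt (min_le_left _ _) (Cd2_kin b hb h5 _ u.2.2 hi).2
  rcases hx with ⟨hx1, hx2⟩ | ⟨hx1, hx2, hx3⟩ | ⟨hx1, hx2, hx3, hx4⟩ | ⟨hx1, hx2, hx3, hx4⟩
  · have q := r1 a x ha hx1
    rcases hy with ⟨hy1, hy2⟩ | ⟨hy1, hy2, hy3⟩ | ⟨hy1, hy2, hy3, hy4⟩ | ⟨hy1, hy2, hy3, hy4⟩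
    · rw [hx2, hy2, Prod.mk.injEq] at h
      exact Cd2_A w a a' ha ha' x y h.1 hx1 hy1 (by rw [h.2, h.1])
    · rw [hx2, hy3, Prod.mk.injEq] at h
      omega
    · rw [hx2, hy4, Prod.mk.injEq] at h
      omega
    · rw [hx2, hy4, Prod.mk.injEq] at h
      omega
  · have q := r2 a x ha hx1 hx2
    rcases hy with ⟨hy1, hy2⟩ | ⟨hy1, hy2, hy3⟩ | ⟨hy1, hy2, hy3, hy4⟩ | ⟨hy1, hy2, hy3, hy4⟩
    · have q' := r1 a' y ha' hy1
      rw [hx3, hy2, Prod.mk.injEq] at h
      omega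
    · rw [hx3, hy3, Prod.mk.injEq] at h
      exact Cd2_B w a a' ha ha' hx1 hy1 x y h.1 (Cd2_kout a ha hx1 _ x.2.2 hx2).1
        (Cd2_kout a' ha' hy1 _ y.2.2 hy2).1 (by omega)
    · rw [hx3, hy4, Prod.mk.injEq] at h
      omega
    · rw [hx3, hy4, Prod.mk.injEq] at h
      omega
  · have q := r3 a x ha hx1 hx2
    rcases hy with ⟨hy1, hy2⟩ | ⟨hy1, hy2, hy3⟩ | ⟨hy1, hy2, hy3, hy4⟩ | ⟨hy1, hy2, hy3, hy4⟩
    · have q' := r1 a' y ha' hy1
      rw [hx4, hy2, Prod.mk.injEq] at h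
      omega
    · have q' := r2 a' y ha' hy1 hy2
      rw [hx4, hy3, Prod.mk.injEq] at h
      omega
    · rw [hx4, hy4, Prod.mk.injEq] at h
      exact Cd2_fold w a a' ha ha' hx1 hy1 x y h.1 fo (fun c => isOut c = true) hx2 hy2
        (Cd2_out5 w x hx2 hx3) (Cd2_out5 w y hy2 hy3) (fun c hc hp => (fo_spec c hc hp).2.1)
        (fun b hb h5 c hc hp => (Cd2_kout b hb h5 c hc hp).1) (by omega)
    · rw [hx4, hy4, Prod.mk.injEq] at h
      omega
  · have q := r4 a x ha hx1 hx2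
    rcases hy with ⟨hy1, hy2⟩ | ⟨hy1, hy2, hy3⟩ | ⟨hy1, hy2, hy3, hy4⟩ | ⟨hy1, hy2, hy3, hy4⟩
    · have q' := r1 a' y ha' hy1
      rw [hx4, hy2, Prod.mk.injEq] at h
      omega
    · have q' := r2 a' y ha' hy1 hy2
      rw [hx4, hy3, Prod.mk.injEq] at h
      omega
    · have q' := r3 a' y ha' hy1 hy2
      rw [hx4, hy4, Prod.mk.injEq] at h
      omega
    · rw [hx4, hy4, Prod.mk.injEq] at h
      exact Cd2_fold w a a' ha ha' hx1 hy1 x y (by rw [hx3, hy3]) fi (fun c => isIn c = true) hx2 hy2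
        (Cd2_in5 w x hx2 hx3) (Cd2_in5 w y hy2 hy3) (fun c hc hp => (fi_spec c hc hp).2.1)
        (fun b hb h5 c hc hp => (Cd2_kin b hb h5 c hc hp).1) (by omega)

theorem code_inj (w : List (Bool × Bool)) (a a' : ℕ) (ha : a ∈ faceL) (ha' : a' ∈ faceL) (x y : Ch w)
    (h : code w a x.1 = code w a' y.1) : a = a' ∧ y ∈ orb (sg w) (fs a) x := by
  obtain ⟨u, hu, hu1, hu2⟩ := Cd2_nf w a ha x
  obtain ⟨v, hv, hv1, hv2⟩ := Cd2_nf w a' ha' y
  obtain ⟨haa, hvu⟩ := Cd2_main w a a' ha ha' u v (by rw [hu1, hv1, h]) hu2 hv2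
  subst haa
  exact ⟨rfl, Cd2_trans w a _ _ _ (Cd2_trans w a _ _ _ hu hvu) (Cd2_symm w a _ _ hv)⟩

end Pool.Agent.MP_455d73_gt.CS
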