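import Pool.Agent.Lib.MP_455d73_gt.CS.Defs

/-!
Campaign CS (MP_455d73_gt), definitions of the statement: simplicial connected sums of copies of CP² and S² × S².
-/

set_option autoImplicit false

open Finset

namespace Pool.Agent.MP_455d73_gt.CS

noncomputable section

/-- The geometric realisation of the abstract simplicial complex with the set of (nonempty) simplices `K`: the
functions `z` on the vertices with sum `1`, positive on the vertices of a simplex and `0` elsewhere. -/
def real {V : Type} (K : Set (Finset V)) : Set (V → ℝ) :=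
  {z | ∃ F ∈ K, (∀ v ∈ F, 0 < z v) ∧ (∀ v, v ∉ F → z v = 0) ∧ ∑ v ∈ F, z v = 1}

/-- The 36 facets of Kühnel's triangulation of the complex projective plane with 9 vertices. The vertex `3 x + y`
is the point `(x, y)` of the affine plane over the field of three elements; the facets are the 27 unions of two
intersecting lines of different directions, neither of them a line `x = c`, and the 9 unions of a line `x = c`
and two points of the line `x = c + 1`. Any three vertices are joined. -/
def kuehnel : List (List ℕ) := [
   [0, 1, 2, 3, 4], [0, 1, 2, 3, 5], [0, 1, 2, 4, 5], [0, 1, 3, 4, 8], [0, 1, 3, 5, 6], [0, 1, 3, 6, 8],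
   [0, 1, 4, 5, 7], [0, 1, 4, 7, 8], [0, 1, 5, 6, 7], [0, 1, 6, 7, 8], [0, 2, 3, 4, 6], [0, 2, 3, 5, 7],
   [0, 2, 3, 6, 7], [0, 2, 4, 5, 8], [0, 2, 4, 6, 8], [0, 2, 5, 7, 8], [0, 2, 6, 7, 8], [0, 3, 4, 6, 8],
   [0, 3, 5, 6, 7], [0, 4, 5, 7, 8], [1, 2, 3, 4, 7], [1, 2, 3, 5, 8], [1, 2, 3, 7, 8], [1, 2, 4, 5, 6],
   [1, 2, 4, 6, 7], [1, 2, 5, 6, 8], [1, 2, 6, 7, 8], [1, 3, 4, 7, 8], [1, 3, 5, 6, 8], [1, 4, 5, 6, 7],
   [2, 3, 4, 6, 7], [2, 3, 5, 7, 8], [2, 4, 5, 6, 8], [3, 4, 5, 6, 7], [3, 4, 5, 6, 8], [3, 4, 5, 7, 8]]

/-- The facet `f` is replaced by the cone over its boundary with the new vertex `z`. -/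
def starred (L : List (List ℕ)) (f : List ℕ) (z : ℕ) : List (List ℕ) :=
  L.filter (fun g => g ≠ f) ++ f.map (fun v => z :: f.erase v)

/-- The triangles of the boundary of the tetrahedron with the vertices `0, 1, 2, 3`. -/
def triangles : List (List ℕ) := [[0, 1, 2], [0, 1, 3], [0, 2, 3], [1, 2, 3]]

/-- The monotone paths from `(0, 0)` to `(2, 2)`: the facets of the product of two triangles. -/
def paths : List (List (ℕ × ℕ)) := [
   [(0, 0), (0, 1), (0, 2), (1, 2), (2, 2)], [(0, 0), (0, 1), (1, 1), (1, 2), (2, 2)],
   [(0, 0), (0, 1), (1, 1), (2, 1), (2, 2)], [(0, 0), (1, 0), (1, 1), (1, 2), (2, 2)],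
   [(0, 0), (1, 0), (1, 1), (2, 1), (2, 2)], [(0, 0), (1, 0), (2, 0), (2, 1), (2, 2)]]

/-- The facets of the template: for `cp = true` Kühnel's complex, two facets of which are starred with the new
vertices `9` and `10`, a triangulation of CP²; for `cp = false` the product triangulation of S² × S², the
product of two boundaries of tetrahedra (the vertex `4 a + b` is the pair `(a, b)`). -/
def facets (cp : Bool) : List (List ℕ) :=
  if cp then starred (starred kuehnel [0, 2, 3, 4, 6] 9) [0, 2, 5, 7, 8] 10
  else triangles.flatMap fun p => triangles.flatMap fun q => paths.map fun s =>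
    s.map fun ij => 4 * p.getD ij.1 0 + q.getD ij.2 0

/-- A facet of the template, with an order of its vertices. -/
def inn (cp : Bool) : List ℕ := if cp then [0, 3, 9, 6, 4] else [4, 9, 5, 15, 13]

/-- A facet of the template disjoint from `inn`, with an order of its vertices; the orders of the vertices of
`inn` and `out` give opposite orientations of the template. -/
def out (cp : Bool) : List ℕ := if cp then [8, 7, 2, 5, 10] else [6, 0, 2, 10, 1]

/-- The first two vertices are interchanged if `rev = true`. -/
def sw (rev : Bool) (j : ℕ) : ℕ := if rev then (if j = 0 then 1 else if j = 1 then 0 else j) else j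

/-- The name of the vertex `v` of the template in the copy number `k`. The vertices of the facet `inn` are the
vertices `(k, 0), …, (k, 4)` (the first two interchanged if the orientation of the copy is reversed with respect
to the copy number `k - 1`), the vertices of the facet `out` are the vertices `(k + 1, 0), …, (k + 1, 4)`. -/
def lbl (cp rev : Bool) (k v : ℕ) : ℕ × ℕ :=
  if v ∈ inn cp then (k, sw rev ((inn cp).idxOf v))
  else if v ∈ out cp then (k + 1, (out cp).idxOf v) else (k, v + 5)

/-- The simplicial connected sum of the closed 4-manifolds given by the letters of `w` (first entry: `true` for CP²,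
`false` for S² × S²; second entry: `true` if the orientation is reversed with respect to the preceding letter): the
facet `out` of the copy number `k` and the facet `inn` of the copy number `k + 1` are removed, and their
vertices are identified. -/
def chain (w : List (Bool × Bool)) : Set (Finset (ℕ × ℕ)) :=
  {F | F.Nonempty ∧ (F ⊆ (range 5).image (fun j => (0, j)) ∨ F ⊆ (range 5).image (fun j => (w.length, j)) ∨
    ∃ (k : ℕ) (cp rev : Bool), w[k]? = some (cp, rev) ∧ ∃ f ∈ facets cp,
      f.toFinset ≠ (inn cp).toFinset ∧ f.toFinset ≠ (out cp).toFinset ∧ F ⊆ f.toFinset.image (lbl cp rev k))}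

end

end Pool.Agent.MP_455d73_gt.CS
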