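import Pool.Agent.Lib.MP_455d73_gt.CS.Chart
import Pool.Agent.Lib.MP_455d73_gt.CS.St

/-!
Campaign CS: the complex of the model of the orbit space (definition only).
-/

set_option autoImplicit false

open Finset
open scoped Classical

namespace Pool.Agent.MP_455d73_gt.CS

noncomputable section

/-- The complex whose realisation is the model: the chains of faces of the chambers. -/
def CX.KX {n : ℕ} {I S : Type} (R : CX n I) (σ : I → Equiv.Perm S) : Set (Finset (Set I × Set S)) :=
  {F | F.Nonempty ∧ ∃ (c : S) (C : Finset (Set I)), (∀ A ∈ C, A ∈ R.faces) ∧ (∀ A ∈ C, ∀ B ∈ C, A ⊆ B ∨ B ⊆ A) ∧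
    F ⊆ C.image (fun A => (A, orb σ A c))}

end

end Pool.Agent.MP_455d73_gt.CS
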