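import Pool.Agent.Lib.MP_455d73_gt.Mg.G026
import Pool.Agent.Lib.MP_455d73_gt.Mg.G028

/-!
TASK Z3 (medium): the shells are replaced by tubes.

`rep` with `n = w.length - 1`, `lam = lamS`, `U = 2 ^ 158 - 1`, `J k = [mO, mI' (kd w (k + 1))]`, `l k = shL …`, `l' k = tbL …`, `R = Yc w ∪ (cx lamI (eiL …) ∪ cx (lamO w.length) eoL)`. `bs U = range 158`. `hinj`: `lamS k` is injective: five ranges with different values.
`hl`: `kf_shL`; `hl'`: `kf_tbL` and `mO`, `mI' κ ⊆ U` (`decide +kernel` for `Nat.land (Nat.lor mO (mI' κ)) U`).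
`hJ`: let `F` be nonempty, in the images of `lamS k` and `lamS k'`, `k ≠ k'`. The image of `lamS k` on `range 158` is `{(k, s) : s < 52} ∪ {(k + 1, s) : 52 ≤ s < 104} ∪ {(k, 104), (k + 1, 104)} ∪ {(k, 10000 + s) : s < 52}`. A common vertex with `lamS k'`: first coordinates `k, k + 1` and `k', k' + 1`. It can only be
`(k + 1, 104)` if `k' = k + 1` and `(k, 104)` if `k' + 1 = k`. So `F = {(k, 104)} = {lamS k 104}` (`j = mO`, `104 ∈ bs mO`), or `F = {(k + 1, 104)} = {lamS k 105}` (`j = mI' κ`, `105 ∈ bs (mI' κ)`).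
`hRJ`: `F ∈ R`, `F ⊆` the image of `lamS k`, `k + 1 < w.length`:
 `F ∈ cx (lamB k') (yL κ')`, `kf_yL`: the vertices are `(k', s)` with `s ∈ bs mO` or `s ∈ bs (mI κ')` or `1000 ≤ s < 2393`. In the image of `lamS k`: the last kind is impossible. `F` nonempty, so `k' = k` or `k' = k + 1`. `k' = k`: the vertices have `s < 52` or `s = 104`, so `s ∈ bs mO`
 (`s ∈ bs (mI κ')` implies `s ≥ 54`, and `s = 104 ∈ bs mO`): `j = mO`. `k' = k + 1`, `κ' = kd w (k + 1)`: `52 ≤ s < 104` or `s = 104`: so `s ∈ bs (mI κ')` (digits of `mO` are `8, 23, 38, 46, 104`), and `(k + 1, s) = lamS k s`, resp. `(k + 1, 104) = lamS k 105`: `j = mI' κ'`.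
 `F ∈ cx lamI (eiL …)`, `kf_eiL`: vertices `lamI s = (0, s)`, `52 ≤ s ≤ 104`, or `(0, 30000 + …)`. In the image of `lamS k`: only `(0, 104)` with `k = 0`: `j = mO`. `F ∈ cx (lamO w.length) eoL`, `kf_eoL`: vertices `(n' - 1, s)`, `s < 52` or `s = 104`, or `(n' - 1, 20000 + …)`, `n' = w.length`,
 in the image of `lamS k`, `k + 1 ≤ n' - 1`: only `(k + 1, 104)`: `j = mI' κ'`.
-/

set_option autoImplicit false

open Finset
open scoped Classical

namespace Pool.Agent.MP_455d73_gt.CS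

open K

theorem Z3_sub {V : Type} (lam : ℕ → V) (l : List ℕ) (M : ℕ) (h : ∀ f ∈ l, Nat.land f M = f) (F : Finset V)
    (hF : F ∈ cx lam l) (v : V) (hv : v ∈ F) : ∃ s ∈ bs M, lam s = v := by
  obtain ⟨_, m, hm, hs⟩ := hF
  have h1 := hs hv
  rw [Finset.mem_image] at h1
  obtain ⟨s, hs1, hs2⟩ := h1
  exact ⟨s, (land_eq_iff m M).1 (h m hm) hs1, hs2⟩

theorem Z3_mem {V : Type} (lam : ℕ → V) (M : Finset ℕ) (v : V) : v ∈ M.image lam ↔ ∃ s ∈ M, lam s = v :=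
  Finset.mem_image

theorem Z3_U (s : ℕ) : s ∈ bs (2 ^ 158 - 1) ↔ s < 158 := by
  have h := bs_pow_sub 0 158 (Nat.zero_le _)
  rw [pow_zero] at h
  rw [h, Finset.mem_Ico]
  omega

theorem Z3_lamS (k s a b : ℕ) : lamS k s = (a, b) ↔
    (s < 52 ∧ a = k ∧ b = s) ∨ (52 ≤ s ∧ s < 104 ∧ a = k + 1 ∧ b = s) ∨ (s = 104 ∧ a = k ∧ b = 104) ∨
      (s = 105 ∧ a = k + 1 ∧ b = 104) ∨ (106 ≤ s ∧ a = k ∧ b = 10000 + (s - 106)) := by
  unfold lamS
  split_ifs <;> simp only [Prod.mk.injEq] <;> omega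

theorem Z3_lamO (n s a b : ℕ) : lamO n s = (a, b) ↔
    (s < 52 ∧ a = n - 1 ∧ b = s) ∨ (52 ≤ s ∧ s < 104 ∧ a = n - 1 ∧ b = 80000 + s) ∨ (s = 104 ∧ a = n - 1 ∧ b = 104) ∨
      (s = 105 ∧ a = n - 1 ∧ b = 80105) ∨ (106 ≤ s ∧ a = n - 1 ∧ b = 20000 + (s - 106)) := by
  unfold lamO
  split_ifs <;> simp only [Prod.mk.injEq] <;> omega

theorem Z3_lamI (s a b : ℕ) : lamI s = (a, b) ↔
    (s < 52 ∧ a = 0 ∧ b = 70000 + s) ∨ (52 ≤ s ∧ s < 106 ∧ a = 0 ∧ b = s) ∨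
      (106 ≤ s ∧ a = 0 ∧ b = 30000 + (s - 106)) := by
  unfold lamI
  split_ifs <;> simp only [Prod.mk.injEq] <;> omega

theorem Z3_inj (k : ℕ) : Set.InjOn (lamS k) (bs (2 ^ 158 - 1)) := by
  intro s hs s' hs' h
  have h1 := (Z3_lamS k s (lamS k s).1 (lamS k s).2).1 rfl
  have h2 := (Z3_lamS k s' (lamS k s).1 (lamS k s).2).1 h.symm
  omega

theorem Z3_mO (s : ℕ) : s ∈ bs mO ↔ s = 8 ∨ s = 23 ∨ s = 38 ∨ s = 46 ∨ s = 104 := by
  rw [bs_mO]
  simp

theorem Z3_mI (κ : Bool) (s : ℕ) (h : s ∈ bs (mI κ)) : (54 ≤ s ∧ s < 104 ∧ s ∈ bs (mI' κ)) ∨ s = 104 := by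
  rw [bs_mI] at h
  rw [bs_mI']
  cases κ
  · simp only [Bool.false_eq_true, if_false, Finset.mem_insert, Finset.mem_singleton] at h ⊢
    omega
  · simp only [if_true, Finset.mem_insert, Finset.mem_singleton] at h ⊢
    omega

theorem Z3_mI1 (κ : Bool) : 105 ∈ bs (mI' κ) := by
  rw [bs_mI']
  cases κ <;> simp

theorem Z3_mI2 (κ : Bool) (s : ℕ) (h : s ∈ bs (mI' κ)) : s < 158 := by
  rw [bs_mI'] at h
  cases κ
  · simp only [Bool.false_eq_true, if_false, Finset.mem_insert, Finset.mem_singleton] at h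
    omega
  · simp only [if_true, Finset.mem_insert, Finset.mem_singleton] at h
    omega

theorem Z3_two (a b s : ℕ) (h : Nat.land a b = 0) (hs : s ∈ bs (a + b)) : s ∈ bs a ∨ s ∈ bs b := by
  have h1 : a + b = Nat.lor a b := add_eq_lor a b h
  rw [h1, bs_lor, Finset.mem_union] at hs
  exact hs

theorem Z3_ei (s : ℕ) (h : s ∈ bs (2 ^ 105 - 2 ^ 52 + (2 ^ 210 - 2 ^ 158))) : (52 ≤ s ∧ s < 105) ∨ 158 ≤ s := by
  rcases Z3_two _ _ s (by decide +kernel) h with h1 | h1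
  · rw [bs_pow_sub 52 105 (by norm_num), Finset.mem_Ico] at h1
    exact Or.inl h1
  · rw [bs_pow_sub 158 210 (by norm_num), Finset.mem_Ico] at h1
    exact Or.inr h1.1

theorem Z3_eo (s : ℕ) (h : s ∈ bs (2 ^ 52 - 1 + 2 ^ 104 + (2 ^ 158 - 2 ^ 106))) :
    s < 52 ∨ s = 104 ∨ (106 ≤ s ∧ s < 158) := by
  rcases Z3_two _ _ s (by decide +kernel) h with h1 | h1
  · rcases Z3_two _ _ s (by decide +kernel) h1 with h2 | h2
    · have h3 := bs_pow_sub 0 52 (Nat.zero_le _)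
      rw [pow_zero] at h3
      rw [h3, Finset.mem_Ico] at h2
      exact Or.inl h2.2
    · rw [bs_two_pow, Finset.mem_singleton] at h2
      exact Or.inr (Or.inl h2)
  · rw [bs_pow_sub 106 158 (by norm_num), Finset.mem_Ico] at h1
    exact Or.inr (Or.inr h1)

theorem Z3_y (κ : Bool) (s : ℕ) (h : s ∈ bs (Nat.lor mO (Nat.lor (mI κ) (2 ^ 2393 - 2 ^ 1000)))) :
    s ∈ bs mO ∨ s ∈ bs (mI κ) ∨ (1000 ≤ s ∧ s < 2393) := by
  rw [bs_lor, bs_lor, Finset.mem_union, Finset.mem_union, bs_pow_sub 1000 2393 (by norm_num), Finset.mem_Ico] at h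
  exact h

theorem Z3_flip (w : List (Bool × Bool)) (hw : w ≠ [])
    (hS : ∀ κ r : Bool, Eqv (2 ^ 158 - 1) [mO, mI' κ] (shL κ r) (tbL κ r)) : FlipEq (Q2 w) (Q3 w) := by
  refine rep (w.length - 1) lamS (2 ^ 158 - 1) (fun k => [mO, mI' (kd w (k + 1))])
    (fun k => shL (kd w (k + 1)) (rv w (k + 1))) (fun k => tbL (kd w (k + 1)) (rv w (k + 1)))
    (Yc w ∪ (cx lamI (eiL (kd w 0)) ∪ cx (lamO w.length) eoL)) ?_ (fun k _ => hS _ _) (fun k _ => Z3_inj k)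
    (fun k _ => allIn_spec _ _ (kf_shL _ _)) ?_ ?_ ?_
  · exact (uni_down _ _ fun k _ => cx_down _ _).union ((cx_down _ _).union (cx_down _ _))
  · intro k _ f hf
    have h := allIn_spec _ _ (kf_tbL (kd w (k + 1)) (rv w (k + 1))) f hf
    rw [land_eq_iff] at h ⊢
    intro s hs
    rw [Z3_U]
    have h1 := h hs
    rw [bs_lor, Finset.mem_union, Z3_mO] at h1
    rcases h1 with h1 | h1
    · omega
    · exact Z3_mI2 _ _ h1
  · intro k _ k' _ hkk F hF h1 h2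
    have key : ∀ v ∈ F, (v.2 = 104 ∧ ((v.1 = k + 1 ∧ k' = k + 1) ∨ (v.1 = k ∧ k' + 1 = k))) := by
      intro v hv
      have a1 := (Z3_mem _ _ _).1 (h1 hv)
      have a2 := (Z3_mem _ _ _).1 (h2 hv)
      obtain ⟨s, hs, e1⟩ := a1
      obtain ⟨s', hs', e2⟩ := a2
      rw [Z3_U] at hs hs'
      have b1 := (Z3_lamS k s v.1 v.2).1 e1
      have b2 := (Z3_lamS k' s' v.1 v.2).1 e2
      omega
    obtain ⟨v0, hv0⟩ := hF
    have k0 := key v0 hv0
    rcases Nat.lt_or_ge k k' with hlt | hge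
    · refine ⟨mI' (kd w (k + 1)), by simp, fun v hv => ?_⟩
      have k1 := key v hv
      exact (Z3_mem _ _ _).2 ⟨105, Z3_mI1 _, (Z3_lamS k 105 v.1 v.2).2 (by omega)⟩
    · refine ⟨mO, by simp, fun v hv => ?_⟩
      have k1 := key v hv
      exact (Z3_mem _ _ _).2 ⟨104, (Z3_mO _).2 (by omega), (Z3_lamS k 104 v.1 v.2).2 (by omega)⟩
  · intro k hk F hF hFs
    have hS1 : ∀ v ∈ F, ∃ s, s < 158 ∧ lamS k s = (v.1, v.2) := by
      intro v hv
      have a1 := (Z3_mem _ _ _).1 (hFs hv)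
      obtain ⟨s, hs, e1⟩ := a1
      rw [Z3_U] at hs
      exact ⟨s, hs, e1⟩
    rcases hF with hF | hF | hF
    · obtain ⟨k', hk', hF⟩ := hF
      have key : ∀ v ∈ F, v.1 = k' ∧ (v.2 ∈ bs mO ∨ v.2 ∈ bs (mI (kd w k')) ∨ (1000 ≤ v.2 ∧ v.2 < 2393)) := by
        intro v hv
        obtain ⟨s, hs, e⟩ := Z3_sub _ _ _ (allIn_spec _ _ (kf_yL (kd w k'))) F hF v hv
        have e1 : v.1 = k' := by rw [← e]; rfl
        have e2 : v.2 = s := by rw [← e]; rfl
        rw [e2]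
        exact ⟨e1, Z3_y _ _ hs⟩
      obtain ⟨v0, hv0⟩ := hF.1
      have c0 := (key v0 hv0).1
      obtain ⟨s0, hs0, e0⟩ := hS1 v0 hv0
      have d0 := (Z3_lamS k s0 _ _).1 e0
      have hk2 : k' = k ∨ k' = k + 1 := by omega
      rcases hk2 with hk2 | hk2
      · refine ⟨mO, by simp, fun v hv => ?_⟩
        obtain ⟨c1, c2⟩ := key v hv
        obtain ⟨s, hs, e⟩ := hS1 v hv
        have d := (Z3_lamS k s _ _).1 e
        refine (Z3_mem _ _ _).2 ⟨s, ?_, e⟩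
        rcases c2 with c2 | c2 | c2
        · have : s = v.2 := by
            rw [Z3_mO] at c2
            omega
          rw [this]
          exact c2
        · have c3 := Z3_mI _ _ c2
          rw [Z3_mO]
          omega
        · omega
      · refine ⟨mI' (kd w (k + 1)), by simp, fun v hv => ?_⟩
        obtain ⟨c1, c2⟩ := key v hv
        obtain ⟨s, hs, e⟩ := hS1 v hv
        have d := (Z3_lamS k s _ _).1 e
        refine (Z3_mem _ _ _).2 ⟨s, ?_, e⟩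
        rcases c2 with c2 | c2 | c2
        · have : s = 105 := by
            rw [Z3_mO] at c2
            omega
          rw [this]
          exact Z3_mI1 _
        · rw [hk2] at c2
          rcases Z3_mI _ _ c2 with c3 | c3
          · have : s = v.2 := by omega
            rw [this]
            exact c3.2.2
          · have : s = 105 := by omega
            rw [this]
            exact Z3_mI1 _
        · omega
    · refine ⟨mO, by simp, fun v hv => ?_⟩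
      obtain ⟨s', hs', e'⟩ := Z3_sub _ _ _ (allIn_spec _ _ (kf_eiL (kd w 0))) F hF v hv
      obtain ⟨s, hs, e⟩ := hS1 v hv
      have d := (Z3_lamS k s _ _).1 e
      have d' := (Z3_lamI s' v.1 v.2).1 e'
      have d2 := Z3_ei _ hs'
      exact (Z3_mem _ _ _).2 ⟨s, (Z3_mO _).2 (by omega), e⟩
    · refine ⟨mI' (kd w (k + 1)), by simp, fun v hv => ?_⟩
      obtain ⟨s', hs', e'⟩ := Z3_sub _ _ _ (allIn_spec _ _ kf_eoL) F hF v hv
      obtain ⟨s, hs, e⟩ := hS1 v hv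
      have d := (Z3_lamS k s _ _).1 e
      have d' := (Z3_lamO w.length s' v.1 v.2).1 e'
      have d2 := Z3_eo _ hs'
      exact (Z3_mem _ _ _).2 ⟨105, Z3_mI1 _, (Z3_lamS k 105 v.1 v.2).2 (by omega)⟩

end Pool.Agent.MP_455d73_gt.CS
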