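import Pool.Agent.Lib.MP_455d73_gt.Mg.G026
import Pool.Agent.Lib.MP_455d73_gt.Mg.G028

/-!
TASK Z4 (medium): the ends are replaced by stars.

`U = 2 ^ 210 - 1`, `bs U = range 210`. First `cx lamI (eiL κ)`, `κ = kd w 0`, by `hI κ` with `R = Tc w ∪ (Yc w ∪ cx (lamO n) eoL)`, then `cx (lamO n) eoL` by `hO` with `R = cx lamI (siL κ) ∪ (Tc w ∪ Yc w)` (reorder the unions; `Down` by `cx_down`, `uni_down`, `Down.union`).
`lamI`, `lamO n` are injective. Conditions: `F ∈ R`, `F ⊆ (range 210).image lamI`, i.e. the vertices are among `(0, 70000 + s)` (`s < 52`), `(0, s)` (`52 ≤ s < 106`), `(0, 30000 + s)`: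
 `F ∈ cx (lamS k) (tbL …)`, `kf_tbL`: vertices `lamS k s`, `s` in `bs mO` or `bs (mI' κ')`: `(k, s)`, `s ∈ {8, 23, 38, 46, 104}`, `(k + 1, s)`: only `(0, 104)` (with `k = 0`) is possible: `F ⊆ {lamI 104}`, `104 ∈ bs (mI κ)`.
 `F ∈ cx (lamB k) (yL …)`, `kf_yL`: vertices `(k, s)`, `s` in `bs mO`, `bs (mI κ)` or `1000 ≤ s < 2393`, so `k = 0`, `52 ≤ s < 106`: `s ∈ bs (mI κ)` (`104` included).
 `F ∈ cx (lamO n) eoL`, `kf_eoL`: vertices `(n - 1, s)`, `s < 52` or `s = 104`, `(n - 1, 20000 + …)`: only `(0, 104)`.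
For `lamO n`: the vertices of `(range 210).image (lamO n)` are `(n - 1, s)` (`s < 52`), `(n - 1, 80000 + s)`, `(n - 1, 104)`, `(n - 1, 80105)`, `(n - 1, 20000 + s)`:
 `F ∈ cx (lamS k) (tbL …)`, `k + 1 < n`: vertices `(k, …)` impossible; `(k + 1, s)`, `s ∈ {54, …, 101}` impossible, `(k + 1, 104)` possible if `k + 1 = n - 1`: `F ⊆ {lamO n 104}`, `104 ∈ bs mO`.
 `F ∈ cx (lamB k) (yL …)`: `k = n - 1`, `s < 52` or `s = 104`: `s ∈ bs mO`. `F ∈ cx lamI (siL κ)`: the digits of `siL κ` are in `bs (mI κ) ∪ {zI κ}` (`kf_siL`), `lamI (zI κ) = (0, 30101)` or `(0, 61)`: only `(0, 104)`, `n = 1`.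
-/

set_option autoImplicit false

open Finset
open scoped Classical

namespace Pool.Agent.MP_455d73_gt.CS

open K

theorem Z4_sub {V : Type} (lam : ℕ → V) (l : List ℕ) (M : ℕ) (h : ∀ f ∈ l, Nat.land f M = f) (F : Finset V)
    (hF : F ∈ cx lam l) (v : V) (hv : v ∈ F) : ∃ s ∈ bs M, lam s = v := by
  obtain ⟨_, m, hm, hs⟩ := hF
  have h1 := hs hv
  rw [Finset.mem_image] at h1
  obtain ⟨s, hs1, hs2⟩ := h1
  exact ⟨s, (land_eq_iff m M).1 (h m hm) hs1, hs2⟩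

theorem Z4_mem {V : Type} (lam : ℕ → V) (M : Finset ℕ) (v : V) : v ∈ M.image lam ↔ ∃ s ∈ M, lam s = v :=
  Finset.mem_image

theorem Z4_U (s : ℕ) : s ∈ bs (2 ^ 210 - 1) ↔ s < 210 := by
  have h := bs_pow_sub 0 210 (Nat.zero_le _)
  rw [pow_zero] at h
  rw [h, Finset.mem_Ico]
  omega

theorem Z4_lamS (k s a b : ℕ) : lamS k s = (a, b) ↔
    (s < 52 ∧ a = k ∧ b = s) ∨ (52 ≤ s ∧ s < 104 ∧ a = k + 1 ∧ b = s) ∨ (s = 104 ∧ a = k ∧ b = 104) ∨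
      (s = 105 ∧ a = k + 1 ∧ b = 104) ∨ (106 ≤ s ∧ a = k ∧ b = 10000 + (s - 106)) := by
  unfold lamS
  split_ifs <;> simp only [Prod.mk.injEq] <;> omega

theorem Z4_lamO (n s a b : ℕ) : lamO n s = (a, b) ↔
    (s < 52 ∧ a = n - 1 ∧ b = s) ∨ (52 ≤ s ∧ s < 104 ∧ a = n - 1 ∧ b = 80000 + s) ∨ (s = 104 ∧ a = n - 1 ∧ b = 104) ∨
      (s = 105 ∧ a = n - 1 ∧ b = 80105) ∨ (106 ≤ s ∧ a = n - 1 ∧ b = 20000 + (s - 106)) := by
  unfold lamO
  split_ifs <;> simp only [Prod.mk.injEq] <;> omega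

theorem Z4_lamI (s a b : ℕ) : lamI s = (a, b) ↔
    (s < 52 ∧ a = 0 ∧ b = 70000 + s) ∨ (52 ≤ s ∧ s < 106 ∧ a = 0 ∧ b = s) ∨
      (106 ≤ s ∧ a = 0 ∧ b = 30000 + (s - 106)) := by
  unfold lamI
  split_ifs <;> simp only [Prod.mk.injEq] <;> omega

theorem Z4_injI : Set.InjOn lamI (bs (2 ^ 210 - 1)) := by
  intro s hs s' hs' h
  rw [Finset.mem_coe, Z4_U] at hs hs'
  have h1 := (Z4_lamI s (lamI s).1 (lamI s).2).1 rfl
  have h2 := (Z4_lamI s' (lamI s).1 (lamI s).2).1 h.symm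
  omega

theorem Z4_injO (n : ℕ) : Set.InjOn (lamO n) (bs (2 ^ 210 - 1)) := by
  intro s hs s' hs' h
  rw [Finset.mem_coe, Z4_U] at hs hs'
  have h1 := (Z4_lamO n s (lamO n s).1 (lamO n s).2).1 rfl
  have h2 := (Z4_lamO n s' (lamO n s).1 (lamO n s).2).1 h.symm
  omega

theorem Z4_mO (s : ℕ) : s ∈ bs mO ↔ s = 8 ∨ s = 23 ∨ s = 38 ∨ s = 46 ∨ s = 104 := by
  rw [bs_mO]
  simp

theorem Z4_mI (κ : Bool) (s : ℕ) (h : s ∈ bs (mI κ)) : (54 ≤ s ∧ s < 104 ∧ s ∈ bs (mI' κ)) ∨ s = 104 := by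
  rw [bs_mI] at h
  rw [bs_mI']
  cases κ
  · simp only [Bool.false_eq_true, if_false, Finset.mem_insert, Finset.mem_singleton] at h ⊢
    omega
  · simp only [if_true, Finset.mem_insert, Finset.mem_singleton] at h ⊢
    omega

theorem Z4_mI1 (κ : Bool) : 104 ∈ bs (mI κ) := by
  rw [bs_mI]
  cases κ <;> simp

theorem Z4_mI2 (κ : Bool) (s : ℕ) (h : s ∈ bs (mI' κ)) : (54 ≤ s ∧ s < 104) ∨ s = 105 := by
  rw [bs_mI'] at h
  cases κ
  · simp only [Bool.false_eq_true, if_false, Finset.mem_insert, Finset.mem_singleton] at h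
    omega
  · simp only [if_true, Finset.mem_insert, Finset.mem_singleton] at h
    omega

theorem Z4_two (a b s : ℕ) (h : Nat.land a b = 0) (hs : s ∈ bs (a + b)) : s ∈ bs a ∨ s ∈ bs b := by
  have h1 : a + b = Nat.lor a b := add_eq_lor a b h
  rw [h1, bs_lor, Finset.mem_union] at hs
  exact hs

theorem Z4_ei (s : ℕ) (h : s ∈ bs (2 ^ 105 - 2 ^ 52 + (2 ^ 210 - 2 ^ 158))) : (52 ≤ s ∧ s < 105) ∨ 158 ≤ s := by
  rcases Z4_two _ _ s (by decide +kernel) h with h1 | h1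
  · rw [bs_pow_sub 52 105 (by norm_num), Finset.mem_Ico] at h1
    exact Or.inl h1
  · rw [bs_pow_sub 158 210 (by norm_num), Finset.mem_Ico] at h1
    exact Or.inr h1.1

theorem Z4_eo (s : ℕ) (h : s ∈ bs (2 ^ 52 - 1 + 2 ^ 104 + (2 ^ 158 - 2 ^ 106))) :
    s < 52 ∨ s = 104 ∨ (106 ≤ s ∧ s < 158) := by
  rcases Z4_two _ _ s (by decide +kernel) h with h1 | h1
  · rcases Z4_two _ _ s (by decide +kernel) h1 with h2 | h2
    · have h3 := bs_pow_sub 0 52 (Nat.zero_le _)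
      rw [pow_zero] at h3
      rw [h3, Finset.mem_Ico] at h2
      exact Or.inl h2.2
    · rw [bs_two_pow, Finset.mem_singleton] at h2
      exact Or.inr (Or.inl h2)
  · rw [bs_pow_sub 106 158 (by norm_num), Finset.mem_Ico] at h1
    exact Or.inr (Or.inr h1)

theorem Z4_y (κ : Bool) (s : ℕ) (h : s ∈ bs (Nat.lor mO (Nat.lor (mI κ) (2 ^ 2393 - 2 ^ 1000)))) :
    s ∈ bs mO ∨ s ∈ bs (mI κ) ∨ (1000 ≤ s ∧ s < 2393) := by
  rw [bs_lor, bs_lor, Finset.mem_union, Finset.mem_union, bs_pow_sub 1000 2393 (by norm_num), Finset.mem_Ico] at h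
  exact h

theorem Z4_tb (κ r : Bool) (F : Finset (ℕ × ℕ)) (k : ℕ) (hF : F ∈ cx (lamS k) (tbL κ r)) (v : ℕ × ℕ) (hv : v ∈ F) :
    (v.1 = k ∧ (v.2 < 52 ∨ v.2 = 104)) ∨ (v.1 = k + 1 ∧ 52 ≤ v.2 ∧ v.2 < 105) := by
  obtain ⟨s, hs, e⟩ := Z4_sub _ _ _ (allIn_spec _ _ (kf_tbL κ r)) F hF v hv
  have d := (Z4_lamS k s v.1 v.2).1 e
  rw [bs_lor, Finset.mem_union, Z4_mO] at hs
  rcases hs with hs | hs
  · omega
  · have := Z4_mI2 _ _ hs
    omega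

theorem Z4_yl (κ : Bool) (F : Finset (ℕ × ℕ)) (k : ℕ) (hF : F ∈ cx (lamB k) (yL κ)) (v : ℕ × ℕ) (hv : v ∈ F) :
    v.1 = k ∧ (v.2 ∈ bs mO ∨ v.2 ∈ bs (mI κ) ∨ (1000 ≤ v.2 ∧ v.2 < 2393)) := by
  obtain ⟨s, hs, e⟩ := Z4_sub _ _ _ (allIn_spec _ _ (kf_yL κ)) F hF v hv
  have e1 : v.1 = k := by rw [← e]; rfl
  have e2 : v.2 = s := by rw [← e]; rfl
  rw [e2]
  exact ⟨e1, Z4_y _ _ hs⟩

theorem Z4_flip (w : List (Bool × Bool)) (hw : w ≠ [])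
    (hI : ∀ κ : Bool, Eqv (2 ^ 210 - 1) [mI κ] (eiL κ) (siL κ)) (hO : Eqv (2 ^ 210 - 1) [mO] eoL soL) :
    FlipEq (Q3 w) (Q4 w) := by
  have hT : Down (Tc w) := uni_down _ _ fun k _ => cx_down _ _
  have hY : Down (Yc w) := uni_down _ _ fun k _ => cx_down _ _
  have e1 : Q3 w = cx lamI (eiL (kd w 0)) ∪ (Tc w ∪ (Yc w ∪ cx (lamO w.length) eoL)) := by
    ext F
    simp only [Q3, Set.mem_union]
    tauto
  have e2 : cx lamI (siL (kd w 0)) ∪ (Tc w ∪ (Yc w ∪ cx (lamO w.length) eoL)) =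
      cx (lamO w.length) eoL ∪ (cx lamI (siL (kd w 0)) ∪ (Tc w ∪ Yc w)) := by
    ext F
    simp only [Set.mem_union]
    tauto
  have e3 : Q4 w = cx (lamO w.length) soL ∪ (cx lamI (siL (kd w 0)) ∪ (Tc w ∪ Yc w)) := by
    ext F
    simp only [Q4, Set.mem_union]
    tauto
  have s1 : FlipEq (Q3 w) (cx lamI (siL (kd w 0)) ∪ (Tc w ∪ (Yc w ∪ cx (lamO w.length) eoL))) := by
    rw [e1]
    refine hI (kd w 0) (ℕ × ℕ) lamI Z4_injI _ (hT.union (hY.union (cx_down _ _))) ?_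
    intro F hF hFs
    refine ⟨mI (kd w 0), by simp, fun v hv => ?_⟩
    obtain ⟨s, hs, e⟩ := (Z4_mem _ _ _).1 (hFs hv)
    rw [Z4_U] at hs
    have d := (Z4_lamI s v.1 v.2).1 e
    rcases hF with hF | hF | hF
    · obtain ⟨k, hk, hF⟩ := hF
      have d1 := Z4_tb _ _ F k hF v hv
      exact (Z4_mem _ _ _).2 ⟨104, Z4_mI1 _, (Z4_lamI 104 v.1 v.2).2 (by omega)⟩
    · obtain ⟨k, hk, hF⟩ := hF
      obtain ⟨d1, d2⟩ := Z4_yl _ F k hF v hv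
      have hk0 : k = 0 := by omega
      rcases d2 with d2 | d2 | d2
      · rw [Z4_mO] at d2
        exact (Z4_mem _ _ _).2 ⟨104, Z4_mI1 _, (Z4_lamI 104 v.1 v.2).2 (by omega)⟩
      · rw [hk0] at d2
        have d3 := Z4_mI _ _ d2
        exact (Z4_mem _ _ _).2 ⟨v.2, d2, (Z4_lamI v.2 v.1 v.2).2 (by omega)⟩
      · omega
    · obtain ⟨s', hs', e'⟩ := Z4_sub _ _ _ (allIn_spec _ _ kf_eoL) F hF v hv
      have d' := (Z4_lamO w.length s' v.1 v.2).1 e'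
      have d2 := Z4_eo _ hs'
      exact (Z4_mem _ _ _).2 ⟨104, Z4_mI1 _, (Z4_lamI 104 v.1 v.2).2 (by omega)⟩
  have s2 : FlipEq (cx (lamO w.length) eoL ∪ (cx lamI (siL (kd w 0)) ∪ (Tc w ∪ Yc w))) (Q4 w) := by
    rw [e3]
    refine hO (ℕ × ℕ) (lamO w.length) (Z4_injO _) _ ((cx_down _ _).union (hT.union hY)) ?_
    intro F hF hFs
    refine ⟨mO, by simp, fun v hv => ?_⟩
    obtain ⟨s, hs, e⟩ := (Z4_mem _ _ _).1 (hFs hv)
    rw [Z4_U] at hs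
    have d := (Z4_lamO w.length s v.1 v.2).1 e
    rcases hF with hF | hF | hF
    · obtain ⟨_, m, hm, hF⟩ := hF
      obtain ⟨s', hs', e'⟩ := (Z4_mem _ _ _).1 (hF hv)
      have d' := (Z4_lamI s' v.1 v.2).1 e'
      obtain ⟨u, hu, hu2⟩ := (kf_siL _ m).1 hm
      rw [hu2, Finset.mem_erase, Finset.mem_insert] at hs'
      rcases hs'.2 with h1 | h1
      · exfalso
        have h2 : s' = 207 ∨ s' = 61 := by
          rw [h1]
          unfold zI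
          split_ifs
          · exact Or.inl rfl
          · exact Or.inr rfl
        omega
      · have h2 := Z4_mI _ _ h1
        exact (Z4_mem _ _ _).2 ⟨104, (Z4_mO _).2 (by omega), (Z4_lamO w.length 104 v.1 v.2).2 (by omega)⟩
    · obtain ⟨k, hk, hF⟩ := hF
      have d1 := Z4_tb _ _ F k hF v hv
      exact (Z4_mem _ _ _).2 ⟨104, (Z4_mO _).2 (by omega), (Z4_lamO w.length 104 v.1 v.2).2 (by omega)⟩
    · obtain ⟨k, hk, hF⟩ := hF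
      obtain ⟨d1, d2⟩ := Z4_yl _ F k hF v hv
      rcases d2 with d2 | d2 | d2
      · have d3 := (Z4_mO _).1 d2
        exact (Z4_mem _ _ _).2 ⟨v.2, d2, (Z4_lamO w.length v.2 v.1 v.2).2 (by omega)⟩
      · have d3 := Z4_mI _ _ d2
        exact (Z4_mem _ _ _).2 ⟨104, (Z4_mO _).2 (by omega), (Z4_lamO w.length 104 v.1 v.2).2 (by omega)⟩
      · omega
  rw [e2] at s1
  exact Relation.EqvGen.trans _ _ _ s1 s2

end Pool.Agent.MP_455d73_gt.CS
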