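import Pool.Agent.Lib.MP_455d73_gt.Mg.G026
import Pool.Agent.Lib.MP_455d73_gt.Mg.G028

/-!
TASK Z5 (medium-hard): the stars of the ends are replaced by simplices; the start region.

`κ = kd w 0`, `n = w.length`, `T = Tc w ∪ Yc w`, `S = cx (lamO n) soL`. `t = (bs (mI κ)).image (lamB 0)`, `tO w = (bs mO).image (lamB (n - 1))`.
(1) `cx lamI (siL κ) = star t (lamI (zI κ))` (`cx_star`, `kf_siL`; `lamI s = (0, s)` for `52 ≤ s < 106`; `lamI` is injective). Vertices of `T`: `lamS k s`, `s ∈ bs mO ∪ bs (mI' κ')` (`kf_tbL`) and `(k, s)`, `s ∈ bs mO ∪ bs (mI κ')` or `1000 ≤ s < 2393` (`kf_yL`). Vertices of `S`: `lamO n s`, `s ∈ bs mO`, `s = 157`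
(`kf_soL`). `lamI (zI κ)` is `(0, 30101)` (`κ = true`) or `(0, 61)` (`κ = false`): neither a vertex of `T` or `S`, nor of `t`. `t ∉ T`, `t ∉ S`: `t` contains `(0, v)`, `v = 54` for `κ = true`, `v = 56` for `κ = false`. `(0, v)` is no vertex of `S` and of no tube; and `t ∈ cx (lamB k) (yL κ')` implies `k = 0`, `κ' = κ`, and
`bs (mI κ) ⊆ bs f` for an `f ∈ yL κ`, against `kf_yL_no` (`noSub b l = true` says `Nat.land b f ≠ b` for all `f ∈ l`; induction on `l`; `land_eq_iff`). So `star_flip`: `cx lamI (siL κ) ∪ (S ∪ T)` ~ `dn t ∪ (S ∪ T)`.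
(2) `cx (lamX w) (sxL κ) = star t (lamX w (zX κ))` (`cx_star`, `kf_sxL`): `(bs 992).image (lamX w) = t`: `lamX w (5 + j) = (0, nth (ysL κ) j)`, and `ysL κ` lists the digits of `mI κ`. `lamX w (zX κ) = (0, 40000 + …)` is not a vertex of `S ∪ T` or `t`. By `star_flip` again: `dn t ∪ (S ∪ T)` ~ `cx (lamX w) (sxL κ) ∪ (S ∪ T)`.
(3) `hX κ` (symmetric form) with `R = S ∪ T`: `cx (lamX w) (sxL κ) ∪ R` ~ `cx (lamX w) (xtL κ) ∪ R`. `lamX w` is injective on `bs (2 ^ 32 - 1) = range 32` (`sw` is a permutation of `0, …, 4`; `ysL κ` has different entries). Condition: `F ∈ R`, vertices among `(0, 40000 + j)`, `(0, ys_j)`, `(0, 60000 + s)`: only `(0, ys_j)` occur in `S ∪ T`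
(so `F ⊆ (bs 992).image (lamX w)`), by the lists above.
(4) `cx (lamO n) soL = star (tO w) (lamO n 157)`, `lamO n 157 = (n - 1, 20051)`; `R = cx (lamX w) (xtL κ) ∪ T`; the vertices of `cx (lamX w) (xtL κ)`: `lamX w s`, `s < 10` (`allIn 1023 (xtL κ)`, by `decide +kernel`). `(n - 1, 20051)` is not a vertex of `R` or `tO w`. `tO w ∉ R`: it contains `(n - 1, 8)`, which is
not a vertex of `cx (lamX w) …` (`ysL` has no `8`) and of no tube `k`, `k + 1 < n`; `tO w ∈ cx (lamB k) (yL κ')` implies `k = n - 1` and `Nat.land mO f = mO` for an `f ∈ yL κ'`, against `kf_yL_no`. `star_flip`.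
The result is `Q5 w` up to the order of the unions.
-/

set_option autoImplicit false

open Finset
open scoped Classical

namespace Pool.Agent.MP_455d73_gt.CS

open K

private theorem Z5_bs_one (b : ℕ) : bs (2 ^ b - 1) = range b := by
  have h := bs_pow_sub 0 b (Nat.zero_le b)
  rw [pow_zero] at h
  rw [h, Finset.range_eq_Ico]

private theorem Z5_cx {V : Type} (lam : ℕ → V) (l : List ℕ) (F : Finset V) (h : F ∈ cx lam l) :
    ∃ m ∈ l, ∀ x ∈ F, ∃ s ∈ bs m, lam s = x := by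
  obtain ⟨_, m, hm, hsub⟩ := h
  exact ⟨m, hm, fun x hx => Finset.mem_image.1 (hsub hx)⟩

private noncomputable def Z5_im {V : Type} (lam : ℕ → V) (m : ℕ) : Finset V := (bs m).image lam

private theorem Z5_mem_im {V : Type} (lam : ℕ → V) (m : ℕ) (x : V) : x ∈ Z5_im lam m ↔ ∃ s ∈ bs m, lam s = x :=
  Finset.mem_image

private theorem Z5_cx_star {V : Type} (lam : ℕ → V) (l : List ℕ) (t z : ℕ) (hz : z ∉ bs t)
    (hlam : ∀ a b, (a = z ∨ a ∈ bs t) → (b = z ∨ b ∈ bs t) → lam a = lam b → a = b)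
    (h : ∀ f, f ∈ l ↔ ∃ v ∈ bs t, bs f = (insert z (bs t)).erase v) : cx lam l = star (Z5_im lam t) (lam z) := by
  refine cx_star lam l t z hz ?_ h
  intro a ha b hb hab
  refine hlam a b ?_ ?_ hab
  · simpa using ha
  · simpa using hb

private theorem Z5_eqv {V : Type} (U : ℕ) (j : ℕ) (l l' : List ℕ) (h : Eqv U [j] l l') (lam : ℕ → V)
    (hinj : ∀ a ∈ bs U, ∀ b ∈ bs U, lam a = lam b → a = b) (R : Set (Finset V)) (hR : Down R)
    (hc : ∀ F ∈ R, (∀ x ∈ F, ∃ s ∈ bs U, lam s = x) → ∀ x ∈ F, ∃ s ∈ bs j, lam s = x) :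
    FlipEq (cx lam l ∪ R) (cx lam l' ∪ R) := by
  refine h V lam (fun a ha b hb hab => hinj a ha b hb hab) R hR ?_
  intro F hF hsub
  exact ⟨j, List.mem_cons_self, fun x hx =>
    Finset.mem_image.2 (hc F hF (fun y hy => Finset.mem_image.1 (hsub hy)) x hx)⟩

private theorem Z5_noSub (b : ℕ) (l : List ℕ) (h : noSub b l = true) : ∀ f ∈ l, ¬ bs b ⊆ bs f := by
  induction l with
  | nil => intro f hf; exact absurd hf List.not_mem_nil
  | cons g l ih =>
    have h' : (Bool.rec (noSub b l) false (Nat.beq (Nat.land b g) b) : Bool) = true := h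
    cases hg : Nat.beq (Nat.land b g) b with
    | true => rw [hg] at h'; exact absurd h' Bool.false_ne_true
    | false =>
      rw [hg] at h'
      intro f hf
      rcases List.mem_cons.1 hf with rfl | hf
      · intro hs
        have h2 := (land_eq_iff b f).2 hs
        have h3 : Nat.beq (Nat.land b f) b = true := by rw [h2]; exact Nat.beq_refl b
        rw [hg] at h3
        exact absurd h3 Bool.false_ne_true
      · exact ih h' f hf

private theorem Z5_mO (s : ℕ) : s ∈ bs mO ↔ (s = 8 ∨ s = 23 ∨ s = 38 ∨ s = 46 ∨ s = 104) := by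
  rw [bs_mO]; simp

private theorem Z5_mIt (s : ℕ) : s ∈ bs (mI true) ↔ (s = 54 ∨ s = 77 ∨ s = 88 ∨ s = 101 ∨ s = 104) := by
  rw [bs_mI]; simp

private theorem Z5_mIf (s : ℕ) : s ∈ bs (mI false) ↔ (s = 56 ∨ s = 75 ∨ s = 91 ∨ s = 99 ∨ s = 104) := by
  rw [bs_mI]; simp

private theorem Z5_mIt' (s : ℕ) : s ∈ bs (mI' true) ↔ (s = 54 ∨ s = 77 ∨ s = 88 ∨ s = 101 ∨ s = 105) := by
  rw [bs_mI']; simp

private theorem Z5_mIf' (s : ℕ) : s ∈ bs (mI' false) ↔ (s = 56 ∨ s = 75 ∨ s = 91 ∨ s = 99 ∨ s = 105) := by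
  rw [bs_mI']; simp

private theorem Z5_mI_bd (κ : Bool) (s : ℕ) (h : s ∈ bs (mI κ)) : 52 < s ∧ s < 105 ∧ s ≠ 61 := by
  cases κ
  · rw [Z5_mIf] at h; omega
  · rw [Z5_mIt] at h; omega

private theorem Z5_mI'_bd (κ : Bool) (s : ℕ) (h : s ∈ bs (mI' κ)) :
    (52 ≤ s ∧ s < 104 ∧ s ∈ bs (mI κ)) ∨ (s = 105 ∧ 104 ∈ bs (mI κ)) := by
  cases κ
  · rw [Z5_mIf'] at h; rw [Z5_mIf, Z5_mIf]; omega
  · rw [Z5_mIt'] at h; rw [Z5_mIt, Z5_mIt]; omega

private theorem Z5_lamS1 (k s : ℕ) (h : s ∈ bs mO) : lamS k s = (k, s) := by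
  rw [Z5_mO] at h
  unfold lamS
  by_cases h1 : s < 52
  · rw [if_pos h1]
  · have h2 : s = 104 := by omega
    subst h2
    rw [if_neg h1, if_neg (by omega), if_pos rfl]

private theorem Z5_lamS2 (κ : Bool) (k s : ℕ) (h : s ∈ bs (mI' κ)) : ∃ s' ∈ bs (mI κ), lamS k s = (k + 1, s') := by
  rcases Z5_mI'_bd κ s h with ⟨h1, h2, h3⟩ | ⟨h1, h2⟩
  · refine ⟨s, h3, ?_⟩
    unfold lamS
    rw [if_neg (by omega), if_pos h2]
  · subst h1
    refine ⟨104, h2, ?_⟩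
    unfold lamS
    rw [if_neg (by omega), if_neg (by omega), if_neg (by omega), if_pos rfl]

private theorem Z5_lamO (n s : ℕ) (h : s ∈ bs mO) : lamO n s = (n - 1, s) := by
  rw [Z5_mO] at h
  unfold lamO
  by_cases h1 : s < 52
  · rw [if_pos h1]
  · have h2 : s = 104 := by omega
    subst h2
    rw [if_neg h1, if_neg (by omega), if_pos rfl]

private theorem Z5_lamO2 (n : ℕ) : lamO n 157 = (n - 1, 20051) := by
  unfold lamO
  rw [if_neg (by omega), if_neg (by omega), if_neg (by omega), if_neg (by omega)]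

private theorem Z5_lamI1 (s : ℕ) (h : 52 ≤ s) (h' : s < 106) : lamI s = (0, s) := by
  unfold lamI
  rw [if_neg (by omega), if_pos h']

private theorem Z5_lamI2 (s : ℕ) (h : 106 ≤ s) : lamI s = (0, 30000 + (s - 106)) := by
  unfold lamI
  rw [if_neg (by omega), if_neg (by omega)]

/-- A simplex of a tube. -/
private theorem Z5_tube (w : List (Bool × Bool)) (F : Finset (ℕ × ℕ)) (hF : F ∈ Tc w) :
    ∃ k, k + 1 < w.length ∧ ∀ x ∈ F, (x.1 = k ∧ x.2 ∈ bs mO) ∨ (x.1 = k + 1 ∧ x.2 ∈ bs (mI (kd w (k + 1)))) := by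
  obtain ⟨k, hk, hF⟩ := hF
  obtain ⟨m, hm, hs⟩ := Z5_cx _ _ _ hF
  refine ⟨k, by omega, fun x hx => ?_⟩
  obtain ⟨s, hs, rfl⟩ := hs x hx
  have h := allIn_spec _ _ (kf_tbL _ _) m hm
  rw [land_eq_iff, bs_lor] at h
  rcases Finset.mem_union.1 (h hs) with h1 | h1
  · left
    rw [Z5_lamS1 k s h1]
    exact ⟨rfl, h1⟩
  · right
    obtain ⟨s', h2, h3⟩ := Z5_lamS2 _ k s h1
    rw [h3]
    exact ⟨rfl, h2⟩

/-- A simplex of a middle part. -/
private theorem Z5_mid (w : List (Bool × Bool)) (F : Finset (ℕ × ℕ)) (hF : F ∈ Yc w) :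
    ∃ k, k < w.length ∧ (∃ m ∈ yL (kd w k), ∀ x ∈ F, x.1 = k ∧ x.2 ∈ bs m) ∧
      ∀ x ∈ F, x.1 = k ∧ (x.2 ∈ bs mO ∨ x.2 ∈ bs (mI (kd w k)) ∨ (1000 ≤ x.2 ∧ x.2 < 2393)) := by
  obtain ⟨k, hk, hF⟩ := hF
  obtain ⟨m, hm, hs⟩ := Z5_cx _ _ _ hF
  refine ⟨k, hk, ⟨m, hm, fun x hx => ?_⟩, fun x hx => ?_⟩
  · obtain ⟨s, hs, rfl⟩ := hs x hx
    exact ⟨rfl, hs⟩
  · obtain ⟨s, hs, rfl⟩ := hs x hx
    refine ⟨rfl, ?_⟩
    have h := allIn_spec _ _ (kf_yL _) m hm
    rw [land_eq_iff, bs_lor, bs_lor, bs_pow_sub 1000 2393 (by omega)] at h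
    rcases Finset.mem_union.1 (h hs) with h1 | h1
    · exact Or.inl h1
    · rcases Finset.mem_union.1 h1 with h1 | h1
      · exact Or.inr (Or.inl h1)
      · exact Or.inr (Or.inr (Finset.mem_Ico.1 h1))

/-- A simplex of the end. -/
private theorem Z5_end (n : ℕ) (F : Finset (ℕ × ℕ)) (hF : F ∈ cx (lamO n) soL) :
    ∀ x ∈ F, x.1 = n - 1 ∧ (x.2 ∈ bs mO ∨ x.2 = 20051) := by
  obtain ⟨m, hm, hs⟩ := Z5_cx _ _ _ hF
  intro x hx
  obtain ⟨s, hs, rfl⟩ := hs x hx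
  obtain ⟨v, hv, hv'⟩ := (kf_soL m).1 hm
  rw [hv'] at hs
  rcases Finset.mem_insert.1 (Finset.mem_of_mem_erase hs) with h | h
  · subst h
    rw [Z5_lamO2]
    exact ⟨rfl, Or.inr rfl⟩
  · rw [Z5_lamO n s h]
    exact ⟨rfl, Or.inl h⟩

/-- The vertices. -/
private theorem Z5_T (w : List (Bool × Bool)) (x : ℕ × ℕ) (hx : x ∈ verts (Tc w ∪ Yc w)) :
    x.2 ∈ bs mO ∨ x.2 ∈ bs (mI (kd w x.1)) ∨ (1000 ≤ x.2 ∧ x.2 < 2393) := by
  obtain ⟨F, hF | hF, hxF⟩ := hx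
  · obtain ⟨k, hk, h⟩ := Z5_tube w F hF
    rcases h x hxF with ⟨h1, h2⟩ | ⟨h1, h2⟩
    · exact Or.inl h2
    · rw [h1]
      exact Or.inr (Or.inl h2)
  · obtain ⟨k, hk, _, h⟩ := Z5_mid w F hF
    obtain ⟨h1, h2⟩ := h x hxF
    rw [h1]
    exact h2

private theorem Z5_ST (w : List (Bool × Bool)) (x : ℕ × ℕ)
    (hx : x ∈ verts (cx (lamO w.length) soL ∪ (Tc w ∪ Yc w))) :
    x.2 ∈ bs mO ∨ x.2 ∈ bs (mI (kd w x.1)) ∨ (1000 ≤ x.2 ∧ x.2 < 2393) ∨ x.2 = 20051 := by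
  obtain ⟨F, hF | hF, hxF⟩ := hx
  · rcases (Z5_end _ F hF x hxF).2 with h | h
    · exact Or.inl h
    · exact Or.inr (Or.inr (Or.inr h))
  · rcases Z5_T w x ⟨F, hF, hxF⟩ with h | h | h
    · exact Or.inl h
    · exact Or.inr (Or.inl h)
    · exact Or.inr (Or.inr (Or.inl h))

private theorem Z5_ST_bd (w : List (Bool × Bool)) (x : ℕ × ℕ)
    (hx : x ∈ verts (cx (lamO w.length) soL ∪ (Tc w ∪ Yc w))) : x.2 < 20052 := by
  rcases Z5_ST w x hx with h | h | h | h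
  · rw [Z5_mO] at h; omega
  · have := Z5_mI_bd _ _ h; omega
  · omega
  · omega

private theorem Z5_ST_I (w : List (Bool × Bool)) : lamI (zI (kd w 0)) ∉ verts (cx (lamO w.length) soL ∪ (Tc w ∪ Yc w)) := by
  intro hx
  have h := Z5_ST w _ hx
  cases hκ : kd w 0
  · rw [hκ] at h
    have h1 : zI false = 61 := rfl
    rw [h1, Z5_lamI1 61 (by omega) (by omega)] at h
    simp only at h
    rw [Z5_mO] at h
    rcases h with h | h | h | h
    · omega
    · have := Z5_mI_bd _ _ h; omega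
    · omega
    · omega
  · rw [hκ] at h
    have h1 : zI true = 207 := rfl
    rw [h1, Z5_lamI2 207 (by omega)] at h
    simp only at h
    rw [Z5_mO] at h
    rcases h with h | h | h | h
    · omega
    · have := Z5_mI_bd _ _ h; omega
    · omega
    · omega

private theorem Z5_lamX1 (w : List (Bool × Bool)) (s : ℕ) (h : s < 5) : lamX w s = (0, 40000 + sw (rv w 0) s) := by
  unfold lamX
  rw [if_pos h]

private theorem Z5_lamX2 (w : List (Bool × Bool)) (s : ℕ) (h : 5 ≤ s) (h' : s < 10) :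
    lamX w s = (0, nth (ysL (kd w 0)) (s - 5)) := by
  unfold lamX
  rw [if_neg (by omega), if_pos h']

private theorem Z5_lamX3 (w : List (Bool × Bool)) (s : ℕ) (h : 10 ≤ s) : lamX w s = (0, 60000 + s) := by
  unfold lamX
  rw [if_neg (by omega), if_neg (by omega)]

private theorem Z5_ys (κ : Bool) : ∀ j < 5, nth (ysL κ) j ∈ bs (mI κ) := by
  intro j hj
  cases κ
  · rw [Z5_mIf]
    interval_cases j
    · right; left; rfl
    · right; right; right; left; rfl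
    · right; right; left; rfl
    · left; rfl
    · right; right; right; right; rfl
  · rw [Z5_mIt]
    interval_cases j
    · right; right; left; rfl
    · right; right; right; right; rfl
    · left; rfl
    · right; right; right; left; rfl
    · right; left; rfl

private theorem Z5_ys' (κ : Bool) : ∀ s ∈ bs (mI κ), ∃ j < 5, nth (ysL κ) j = s := by
  intro s hs
  cases κ
  · rw [Z5_mIf] at hs
    rcases hs with rfl | rfl | rfl | rfl | rfl
    · exact ⟨3, by omega, rfl⟩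
    · exact ⟨0, by omega, rfl⟩
    · exact ⟨2, by omega, rfl⟩
    · exact ⟨1, by omega, rfl⟩
    · exact ⟨4, by omega, rfl⟩
  · rw [Z5_mIt] at hs
    rcases hs with rfl | rfl | rfl | rfl | rfl
    · exact ⟨2, by omega, rfl⟩
    · exact ⟨4, by omega, rfl⟩
    · exact ⟨0, by omega, rfl⟩
    · exact ⟨3, by omega, rfl⟩
    · exact ⟨1, by omega, rfl⟩

private theorem Z5_ys_inj (κ : Bool) (i j : ℕ) (hi : i < 5) (hj : j < 5) (h : nth (ysL κ) i = nth (ysL κ) j) : i = j := by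
  have key : ∀ κ : Bool, ∀ i < 5, ∀ j < 5, nth (ysL κ) i = nth (ysL κ) j → i = j := by decide +kernel
  exact key κ i hi j hj h

private theorem Z5_sw_inj (r : Bool) (i j : ℕ) (h : sw r i = sw r j) : i = j := by
  unfold sw at h
  cases r
  · simpa using h
  · simp only [if_true] at h
    split_ifs at h <;> omega

private theorem Z5_sw_lt (r : Bool) (i : ℕ) (h : i < 5) : sw r i < 5 := by
  unfold sw
  cases r
  · simpa using h
  · simp only [if_true]
    split_ifs <;> omega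

/-- The images of the numbers. -/
private theorem Z5_lamX_snd (w : List (Bool × Bool)) (s : ℕ) :
    (s < 5 ∧ 40000 ≤ (lamX w s).2 ∧ (lamX w s).2 < 40005) ∨
      (5 ≤ s ∧ s < 10 ∧ (lamX w s).2 ∈ bs (mI (kd w 0))) ∨ (10 ≤ s ∧ (lamX w s).2 = 60000 + s) := by
  by_cases h : s < 5
  · left
    rw [Z5_lamX1 w s h]
    have := Z5_sw_lt (rv w 0) s h
    refine ⟨h, ?_, ?_⟩
    · simp only; omega
    · simp only; omega
  · by_cases h' : s < 10
    · right; left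
      rw [Z5_lamX2 w s (by omega) h']
      exact ⟨by omega, h', Z5_ys _ _ (by omega)⟩
    · right; right
      rw [Z5_lamX3 w s (by omega)]
      exact ⟨by omega, rfl⟩

private theorem Z5_lamX_inj (w : List (Bool × Bool)) (a b : ℕ) (h : lamX w a = lamX w b) : a = b := by
  have h2 : (lamX w a).2 = (lamX w b).2 := by rw [h]
  rcases Z5_lamX_snd w a with ⟨ha, ha1, ha2⟩ | ⟨ha, ha1, ha2⟩ | ⟨ha, ha1⟩ <;>
    rcases Z5_lamX_snd w b with ⟨hb, hb1, hb2⟩ | ⟨hb, hb1, hb2⟩ | ⟨hb, hb1⟩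
  · rw [Z5_lamX1 w a ha, Z5_lamX1 w b hb] at h2
    simp only at h2
    exact Z5_sw_inj (rv w 0) a b (by omega)
  · have := Z5_mI_bd _ _ hb2; omega
  · omega
  · have := Z5_mI_bd _ _ ha2; omega
  · rw [Z5_lamX2 w a ha ha1, Z5_lamX2 w b hb hb1] at h2
    have := Z5_ys_inj (kd w 0) (a - 5) (b - 5) (by omega) (by omega) h2
    omega
  · have := Z5_mI_bd _ _ ha2; omega
  · omega
  · have := Z5_mI_bd _ _ hb2; omega
  · omega

private theorem Z5_992 (s : ℕ) : s ∈ bs 992 ↔ (5 ≤ s ∧ s < 10) := by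
  rw [bs_992]
  simp only [Finset.mem_insert, Finset.mem_singleton]
  omega

/-- The simplex of the port `in`. -/
private theorem Z5_t (w : List (Bool × Bool)) : Z5_im lamI (mI (kd w 0)) = Z5_im (lamX w) 992 := by
  ext x
  rw [Z5_mem_im, Z5_mem_im]
  constructor
  · rintro ⟨s, hs, rfl⟩
    have hb := Z5_mI_bd _ _ hs
    obtain ⟨j, hj, hj'⟩ := Z5_ys' _ s hs
    refine ⟨j + 5, (Z5_992 _).2 ⟨by omega, by omega⟩, ?_⟩
    rw [Z5_lamX2 w (j + 5) (by omega) (by omega), Z5_lamI1 s (by omega) (by omega), Nat.add_sub_cancel, hj']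
  · rintro ⟨s, hs, rfl⟩
    obtain ⟨h1, h2⟩ := (Z5_992 _).1 hs
    have h3 := Z5_ys (kd w 0) (s - 5) (by omega)
    have hb := Z5_mI_bd _ _ h3
    refine ⟨nth (ysL (kd w 0)) (s - 5), h3, ?_⟩
    rw [Z5_lamX2 w s h1 h2, Z5_lamI1 _ (by omega) (by omega)]

private theorem Z5_t_mem (w : List (Bool × Bool)) (x : ℕ × ℕ) :
    x ∈ Z5_im lamI (mI (kd w 0)) ↔ x.1 = 0 ∧ x.2 ∈ bs (mI (kd w 0)) := by
  rw [Z5_mem_im]
  constructor
  · rintro ⟨s, hs, rfl⟩
    have hb := Z5_mI_bd _ _ hs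
    rw [Z5_lamI1 s (by omega) (by omega)]
    exact ⟨rfl, hs⟩
  · rintro ⟨h1, h2⟩
    have hb := Z5_mI_bd _ _ h2
    refine ⟨x.2, h2, ?_⟩
    rw [Z5_lamI1 _ (by omega) (by omega), ← h1]

private theorem Z5_tO_mem (w : List (Bool × Bool)) (x : ℕ × ℕ) :
    x ∈ Z5_im (lamO w.length) mO ↔ x.1 = w.length - 1 ∧ x.2 ∈ bs mO := by
  rw [Z5_mem_im]
  constructor
  · rintro ⟨s, hs, rfl⟩
    rw [Z5_lamO _ s hs]
    exact ⟨rfl, hs⟩
  · rintro ⟨h1, h2⟩
    refine ⟨x.2, h2, ?_⟩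
    rw [Z5_lamO _ _ h2, ← h1]

private theorem Z5_tO (w : List (Bool × Bool)) : Z5_im (lamO w.length) mO = tO w := by
  ext x
  rw [Z5_tO_mem]
  unfold tO
  rw [Finset.mem_image]
  constructor
  · rintro ⟨h1, h2⟩
    refine ⟨x.2, h2, ?_⟩
    unfold lamB
    rw [← h1]
  · rintro ⟨s, hs, rfl⟩
    exact ⟨rfl, hs⟩

private theorem Z5_siL (w : List (Bool × Bool)) :
    cx lamI (siL (kd w 0)) = star (Z5_im lamI (mI (kd w 0))) (lamI (zI (kd w 0))) := by
  have hz : zI (kd w 0) ∉ bs (mI (kd w 0)) := by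
    intro h
    have hb := Z5_mI_bd _ _ h
    unfold zI at hb
    split_ifs at hb <;> omega
  refine Z5_cx_star _ _ _ _ hz ?_ (kf_siL _)
  have hr : ∀ a, (a = zI (kd w 0) ∨ a ∈ bs (mI (kd w 0))) → 52 ≤ a ∧ a < 210 := by
    rintro a (rfl | ha)
    · unfold zI
      split_ifs <;> omega
    · have hb := Z5_mI_bd _ _ ha
      omega
  intro a b ha hb hab
  have ha' := hr a ha
  have hb' := hr b hb
  by_cases h1 : a < 106 <;> by_cases h2 : b < 106
  · rw [Z5_lamI1 a ha'.1 h1, Z5_lamI1 b hb'.1 h2] at hab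
    exact (Prod.mk.inj hab).2
  · rw [Z5_lamI1 a ha'.1 h1, Z5_lamI2 b (by omega)] at hab
    have := (Prod.mk.inj hab).2
    omega
  · rw [Z5_lamI2 a (by omega), Z5_lamI1 b hb'.1 h2] at hab
    have := (Prod.mk.inj hab).2
    omega
  · rw [Z5_lamI2 a (by omega), Z5_lamI2 b (by omega)] at hab
    have := (Prod.mk.inj hab).2
    omega

private theorem Z5_zX_lt (κ : Bool) : zX κ < 5 := by
  unfold zX
  split_ifs <;> omega

private theorem Z5_sxL (w : List (Bool × Bool)) :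
    cx (lamX w) (sxL (kd w 0)) = star (Z5_im (lamX w) 992) (lamX w (zX (kd w 0))) := by
  have hz : zX (kd w 0) ∉ bs 992 := by
    intro h
    have hb := (Z5_992 _).1 h
    have := Z5_zX_lt (kd w 0)
    omega
  exact Z5_cx_star _ _ _ _ hz (fun a b _ _ hab => Z5_lamX_inj w a b hab) (kf_sxL _)

private theorem Z5_soL (w : List (Bool × Bool)) :
    cx (lamO w.length) soL = star (Z5_im (lamO w.length) mO) (lamO w.length 157) := by
  have hz : 157 ∉ bs mO := by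
    rw [Z5_mO]; omega
  refine Z5_cx_star _ _ _ _ hz ?_ kf_soL
  have hr : ∀ a, (a = 157 ∨ a ∈ bs mO) → (lamO w.length a = (w.length - 1, a) ∧ a < 105) ∨
      (lamO w.length a = (w.length - 1, 20051) ∧ a = 157) := by
    rintro a (rfl | ha)
    · exact Or.inr ⟨Z5_lamO2 _, rfl⟩
    · refine Or.inl ⟨Z5_lamO _ a ha, ?_⟩
      rw [Z5_mO] at ha
      omega
  intro a b ha hb hab
  rcases hr a ha with ⟨h1, h2⟩ | ⟨h1, h2⟩ <;> rcases hr b hb with ⟨h3, h4⟩ | ⟨h3, h4⟩ <;> rw [h1, h3] at hab <;>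
    have h5 := (Prod.mk.inj hab).2 <;> omega

private theorem Z5_t_not (w : List (Bool × Bool)) :
    Z5_im lamI (mI (kd w 0)) ∉ cx (lamO w.length) soL ∪ (Tc w ∪ Yc w) := by
  obtain ⟨v, hv, hv'⟩ : ∃ v ∈ bs (mI (kd w 0)), v < 104 := by
    cases kd w 0
    · exact ⟨56, (Z5_mIf _).2 (Or.inl rfl), by omega⟩
    · exact ⟨54, (Z5_mIt _).2 (Or.inl rfl), by omega⟩
  have hb := Z5_mI_bd _ _ hv
  have hvm : ((0, v) : ℕ × ℕ) ∈ Z5_im lamI (mI (kd w 0)) := (Z5_t_mem w _).2 ⟨rfl, hv⟩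
  have hvO : v ∉ bs mO := by
    rw [Z5_mO]; omega
  rintro (h | h | h)
  · rcases (Z5_end _ _ h _ hvm).2 with h | h
    · exact hvO h
    · simp only at h
      omega
  · obtain ⟨k, hk, h⟩ := Z5_tube w _ h
    rcases h _ hvm with ⟨_, h⟩ | ⟨h, _⟩
    · exact hvO h
    · simp only at h
      omega
  · obtain ⟨k, hk, ⟨m, hm, h⟩, _⟩ := Z5_mid w _ h
    have hk0 : 0 = k := (h _ hvm).1
    subst hk0
    refine Z5_noSub _ _ (kf_yL_no (kd w 0)).1 m hm ?_
    intro s hs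
    exact (h (0, s) ((Z5_t_mem w _).2 ⟨rfl, hs⟩)).2

private theorem Z5_xt (w : List (Bool × Bool)) (F : Finset (ℕ × ℕ)) (hF : F ∈ cx (lamX w) (xtL (kd w 0))) :
    ∀ x ∈ F, x.1 = 0 ∧ ((40000 ≤ x.2 ∧ x.2 < 40005) ∨ x.2 ∈ bs (mI (kd w 0))) := by
  obtain ⟨m, hm, hs⟩ := Z5_cx _ _ _ hF
  intro x hx
  obtain ⟨s, hs, rfl⟩ := hs x hx
  have ha : allIn (2 ^ 10 - 1) (xtL (kd w 0)) = true := by
    cases kd w 0 <;> decide +kernel
  have h := allIn_spec _ _ ha m hm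
  rw [land_eq_iff, Z5_bs_one] at h
  have hs' := Finset.mem_range.1 (h hs)
  have h1 : (lamX w s).1 = 0 := by
    unfold lamX
    split_ifs <;> rfl
  refine ⟨h1, ?_⟩
  rcases Z5_lamX_snd w s with ⟨ha, ha1, ha2⟩ | ⟨ha, ha1, ha2⟩ | ⟨ha, ha1⟩
  · exact Or.inl ⟨ha1, ha2⟩
  · exact Or.inr ha2
  · omega

private theorem Z5_down (w : List (Bool × Bool)) : Down (Tc w ∪ Yc w) :=
  Down.union (uni_down _ _ fun _ _ => cx_down _ _) (uni_down _ _ fun _ _ => cx_down _ _)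

theorem Z5_flip (w : List (Bool × Bool)) (hw : w ≠ [])
    (hX : ∀ κ : Bool, Eqv (2 ^ 32 - 1) [992] (xtL κ) (sxL κ)) : FlipEq (Q4 w) (Q5 w) := by
  have hn : 0 < w.length := List.length_pos_iff.2 hw
  have hdR : Down (cx (lamO w.length) soL ∪ (Tc w ∪ Yc w)) := Down.union (cx_down _ _) (Z5_down w)
  have htne : (Z5_im lamI (mI (kd w 0))).Nonempty := by
    cases hκ : kd w 0
    · refine ⟨(0, 56), ?_⟩
      rw [← hκ, Z5_t_mem, hκ]
      exact ⟨rfl, (Z5_mIf _).2 (Or.inl rfl)⟩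
    · refine ⟨(0, 54), ?_⟩
      rw [← hκ, Z5_t_mem, hκ]
      exact ⟨rfl, (Z5_mIt _).2 (Or.inl rfl)⟩
  have hX2 : 40000 ≤ (lamX w (zX (kd w 0))).2 := by
    rw [Z5_lamX1 _ _ (Z5_zX_lt _)]
    simp only
    omega
  -- step 1
  have s1 : FlipEq (cx lamI (siL (kd w 0)) ∪ (cx (lamO w.length) soL ∪ (Tc w ∪ Yc w)))
      (dn (Z5_im lamI (mI (kd w 0))) ∪ (cx (lamO w.length) soL ∪ (Tc w ∪ Yc w))) := by
    rw [Z5_siL]
    refine star_flip _ hdR _ htne _ (Z5_ST_I w) ?_ (Z5_t_not w)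
    intro h
    have h2 := ((Z5_t_mem w _).1 h).2
    have hb := Z5_mI_bd _ _ h2
    cases hκ : kd w 0
    · rw [hκ] at hb
      have h1 : zI false = 61 := rfl
      rw [h1, Z5_lamI1 61 (by omega) (by omega)] at hb
      simp only at hb
      omega
    · rw [hκ] at hb
      have h1 : zI true = 207 := rfl
      rw [h1, Z5_lamI2 207 (by omega)] at hb
      simp only at hb
      omega
  -- step 2
  have s2 : FlipEq (cx (lamX w) (sxL (kd w 0)) ∪ (cx (lamO w.length) soL ∪ (Tc w ∪ Yc w)))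
      (dn (Z5_im lamI (mI (kd w 0))) ∪ (cx (lamO w.length) soL ∪ (Tc w ∪ Yc w))) := by
    rw [Z5_sxL, ← Z5_t]
    refine star_flip _ hdR _ htne _ ?_ ?_ (Z5_t_not w)
    · intro h
      have := Z5_ST_bd w _ h
      omega
    · intro h
      have h2 := ((Z5_t_mem w _).1 h).2
      have hb := Z5_mI_bd _ _ h2
      omega
  -- step 3
  have s3 : FlipEq (cx (lamX w) (xtL (kd w 0)) ∪ (cx (lamO w.length) soL ∪ (Tc w ∪ Yc w)))
      (cx (lamX w) (sxL (kd w 0)) ∪ (cx (lamO w.length) soL ∪ (Tc w ∪ Yc w))) := by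
    refine Z5_eqv _ _ _ _ (hX (kd w 0)) (lamX w) (fun a _ b _ hab => Z5_lamX_inj w a b hab) _ hdR ?_
    intro F hF h x hx
    obtain ⟨s, _, rfl⟩ := h x hx
    refine ⟨s, ?_, rfl⟩
    have hbd := Z5_ST_bd w _ ⟨F, hF, hx⟩
    rw [Z5_992]
    rcases Z5_lamX_snd w s with ⟨ha, ha1, ha2⟩ | ⟨ha, ha1, ha2⟩ | ⟨ha, ha1⟩
    · omega
    · exact ⟨ha, ha1⟩
    · omega
  -- step 4
  have hdR' : Down (cx (lamX w) (xtL (kd w 0)) ∪ (Tc w ∪ Yc w)) := Down.union (cx_down _ _) (Z5_down w)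
  have h8 : ((w.length - 1, 8) : ℕ × ℕ) ∈ Z5_im (lamO w.length) mO :=
    (Z5_tO_mem w _).2 ⟨rfl, (Z5_mO _).2 (Or.inl rfl)⟩
  have s4 : FlipEq (cx (lamO w.length) soL ∪ (cx (lamX w) (xtL (kd w 0)) ∪ (Tc w ∪ Yc w)))
      (dn (tO w) ∪ (cx (lamX w) (xtL (kd w 0)) ∪ (Tc w ∪ Yc w))) := by
    rw [Z5_soL, ← Z5_tO]
    refine star_flip _ hdR' _ ⟨_, h8⟩ _ ?_ ?_ ?_
    · rw [Z5_lamO2]
      rintro ⟨F, hF | hF, hx⟩
      · rcases (Z5_xt w F hF _ hx).2 with h | h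
        · simp only at h
          omega
        · have hb := Z5_mI_bd _ _ h
          simp only at hb
          omega
      · rcases Z5_T w _ ⟨F, hF, hx⟩ with h | h | h
        · rw [Z5_mO] at h
          simp only at h
          omega
        · have hb := Z5_mI_bd _ _ h
          simp only at hb
          omega
        · simp only at h
          omega
    · rw [Z5_lamO2]
      intro h
      have h2 := ((Z5_tO_mem w _).1 h).2
      rw [Z5_mO] at h2
      simp only at h2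
      omega
    · rintro (h | h | h)
      · rcases (Z5_xt w _ h _ h8).2 with h | h
        · simp only at h
          omega
        · have hb := Z5_mI_bd _ _ h
          simp only at hb
          omega
      · obtain ⟨k, hk, h⟩ := Z5_tube w _ h
        rcases h _ h8 with ⟨h, _⟩ | ⟨_, h⟩
        · simp only at h
          omega
        · have hb := Z5_mI_bd _ _ h
          simp only at hb
          omega
      · obtain ⟨k, hk, ⟨m, hm, h⟩, _⟩ := Z5_mid w _ h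
        have hk0 : w.length - 1 = k := (h _ h8).1
        refine Z5_noSub _ _ (kf_yL_no (kd w k)).2 m hm ?_
        intro s hs
        exact (h (w.length - 1, s) ((Z5_tO_mem w _).2 ⟨rfl, hs⟩)).2
  have e1 : cx (lamX w) (xtL (kd w 0)) ∪ (cx (lamO w.length) soL ∪ (Tc w ∪ Yc w)) =
      cx (lamO w.length) soL ∪ (cx (lamX w) (xtL (kd w 0)) ∪ (Tc w ∪ Yc w)) := Set.union_left_comm _ _ _
  have e2 : Q5 w = dn (tO w) ∪ (cx (lamX w) (xtL (kd w 0)) ∪ (Tc w ∪ Yc w)) := Set.union_left_comm _ _ _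
  rw [e2]
  rw [e1] at s3
  exact s1.trans (s2.symm.trans (s3.symm.trans s4))

end Pool.Agent.MP_455d73_gt.CS
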