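import Pool.Agent.Lib.MP_455d73_gt.Mg.G026
import Pool.Agent.Lib.MP_455d73_gt.Mg.G023

/-!
TASK Z8 (medium-hard): the last complex is the connected sum with renamed vertices.

`locL κ` is the table of the numbers of the vertices of the template (`κ = true`: 11 vertices, `false`: 16). Let `mk l = ` the mask of the list `l` (sum of `2 ^ v`), `loc κ v = nth (locL κ) v`.
(1) Closed facts (`decide +kernel` after `cases κ`): every `f ∈ facets κ` with `mk f ≠ mk (inn κ)`, `mk f ≠ mk (out κ)` has `mk (f.map (loc κ)) ∈ tA κ`; every `m ∈ tA κ` is `mk (f.map (loc κ))` for such an `f`; the vertices of the facets are `< 11` resp. `< 16`, `loc κ` is injective on them, maps `inn κ` to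
`[0, 1, 2, 3, 4]`, `out κ` to `[5, 6, 7, 8, 9]`, the others to numbers `≥ 10` and `< 32`. `f.toFinset ≠ g.toFinset ↔ mk f ≠ mk g` (`bs (mk l) = l.toFinset` for lists without repetition; or use `List.foldr` with `Nat.lor`).
(2) For a vertex `v` of the template: `rho w (lbl κ r k v) = lamA w k (loc κ v)`, `κ = kd w k`, `r = rv w k`: `v ∈ inn κ` with index `i`: `lbl = (k, sw r i)`, `rho` is `(0, 40000 + sw r i)` for `k = 0` and `(k - 1, nth xsL (sw r i))` otherwise, which is `lamA w k i`; `v ∈ out κ` with index `i`: `lbl = (k + 1, i)`,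
`rho = (k, nth xsL i) = lamA w k (5 + i)`; otherwise `lbl = (k, v + 5)` and `rho w (k, v + 5) = lamA w k (loc κ v)` by definition.
(3) So for a facet `f`: `(f.toFinset.image (lbl κ r k)).image (rho w) = (bs (mk (f.map (loc κ)))).image (lamA w k)`: the image of the part `k` of `chain w` is `cx (lamA w k) (tA κ)`. `(range 5).image (fun j => (0, j))` goes to `tX`, `(range 5).image (fun j => (n, j))` to `tO w` (`n ≥ 1`; `xsL` lists the digits of `mO`).
`w[k]? = some (κ, r)` iff `k < n`, `κ = kd w k`, `r = rv w k`. For `⊆`/`⊇` of complexes: a nonempty subset of an image is the image of a nonempty subset.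
(4) Injectivity on the vertices of `chain w`: these are `(k, j)`, `j < 5`, `k ≤ n`, and `(k, v + 5)`, `k < n`, `v` a vertex of the template `kd w k` not in `inn`, `out`. Values: `(0, 40000 + j)`; `(k - 1, xs_j)`; `lamA w k s` with `s = loc κ v ≥ 10`: `(k, ex)` or `(k, 50000 + s)`; all different (the entries of `exL κ` are not in `xsL`).
-/

set_option autoImplicit false

open Finset
open scoped Classical

namespace Pool.Agent.MP_455d73_gt.CS

/-- The mask of a list of vertices. -/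
private noncomputable def Z8_mk (l : List ℕ) : ℕ := K.orL (l.map fun v => Nat.pow 2 v)

private theorem Z8_bs_mk (l : List ℕ) : bs (Z8_mk l) = l.toFinset := by
  ext v
  rw [Z8_mk, mem_bs_orL]
  simp only [List.mem_map, List.mem_toFinset]
  constructor
  · rintro ⟨m, ⟨u, hu, rfl⟩, hv⟩
    rw [show Nat.pow 2 u = 2 ^ u from rfl, bs_two_pow, Finset.mem_singleton] at hv
    rw [hv]
    exact hu
  · intro hv
    refine ⟨Nat.pow 2 v, ⟨v, hv, rfl⟩, ?_⟩
    rw [show Nat.pow 2 v = 2 ^ v from rfl, bs_two_pow, Finset.mem_singleton]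

private theorem Z8_ne_iff (l l' : List ℕ) : l.toFinset ≠ l'.toFinset ↔ Z8_mk l ≠ Z8_mk l' := by
  rw [not_iff_not, ← Z8_bs_mk, ← Z8_bs_mk]
  exact ⟨fun h => bs_inj h, fun h => by rw [h]⟩

private theorem Z8_A (κ : Bool) : ∀ f ∈ facets κ, Z8_mk f ≠ Z8_mk (inn κ) → Z8_mk f ≠ Z8_mk (out κ) →
    Z8_mk (f.map (K.nth (K.locL κ))) ∈ K.tA κ := by
  cases κ <;> decide +kernel

private theorem Z8_B (κ : Bool) : ∀ m ∈ K.tA κ, ∃ f ∈ facets κ, Z8_mk f ≠ Z8_mk (inn κ) ∧ Z8_mk f ≠ Z8_mk (out κ) ∧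
    Z8_mk (f.map (K.nth (K.locL κ))) = m := by
  cases κ <;> decide +kernel

private theorem Z8_C (κ : Bool) : ∀ v ∈ inn κ, K.nth (K.locL κ) v = (inn κ).idxOf v ∧ (inn κ).idxOf v < 5 := by
  cases κ <;> decide +kernel

private theorem Z8_D (κ : Bool) : ∀ v ∈ out κ, K.nth (K.locL κ) v = 5 + (out κ).idxOf v ∧ (out κ).idxOf v < 5 := by
  cases κ <;> decide +kernel

private theorem Z8_E (κ : Bool) : ∀ f ∈ facets κ, ∀ v ∈ f, v < 16 := by
  cases κ <;> decide +kernel

/-- The second part of the names of the inner vertices of the regions. -/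
private noncomputable def Z8_sc (κ : Bool) (s : ℕ) : ℕ :=
  if s < 10 + (K.exL κ).length then K.nth (K.exL κ) (s - 10) else 50000 + s

private theorem Z8_F (κ : Bool) : ∀ f ∈ facets κ, ∀ v ∈ f, v ∉ inn κ → v ∉ out κ →
    10 ≤ K.nth (K.locL κ) v ∧ Z8_sc κ (K.nth (K.locL κ) v) ∉ K.xsL ∧
      (Z8_sc κ (K.nth (K.locL κ) v) < 40000 ∨ 40005 ≤ Z8_sc κ (K.nth (K.locL κ) v)) := by
  cases κ <;> decide +kernel

private theorem Z8_V : ∃ N : Bool → List ℕ, (∀ κ, ∀ f ∈ facets κ, ∀ v ∈ f, v ∈ N κ) ∧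
    ∀ κ, ∀ v ∈ N κ, ∀ v' ∈ N κ, v ∉ inn κ → v ∉ out κ → v' ∉ inn κ → v' ∉ out κ →
      Z8_sc κ (K.nth (K.locL κ) v) = Z8_sc κ (K.nth (K.locL κ) v') → v = v' := by
  refine ⟨fun κ => if κ then List.range 11 else List.range 16, ?_, ?_⟩
  · intro κ
    cases κ <;> decide +kernel
  · intro κ
    cases κ <;> decide +kernel

private theorem Z8_G (κ : Bool) (f : List ℕ) (hf : f ∈ facets κ) (f' : List ℕ) (hf' : f' ∈ facets κ) (v : ℕ)
    (hv : v ∈ f) (v' : ℕ) (hv' : v' ∈ f') (h1 : v ∉ inn κ) (h2 : v ∉ out κ) (h1' : v' ∉ inn κ) (h2' : v' ∉ out κ)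
    (h : Z8_sc κ (K.nth (K.locL κ) v) = Z8_sc κ (K.nth (K.locL κ) v')) : v = v' := by
  obtain ⟨N, hN, hN'⟩ := Z8_V
  exact hN' κ v (hN κ f hf v hv) v' (hN κ f' hf' v' hv') h1 h2 h1' h2' h

private theorem Z8_sw (r : Bool) (j : ℕ) (hj : j < 5) : sw r j < 5 := by
  unfold sw
  split_ifs <;> omega

private theorem Z8_xs_mem : ∀ j < 5, K.nth K.xsL j ∈ K.xsL ∧ K.nth K.xsL j < 40000 := by
  decide +kernel

private theorem Z8_xs_inj : ∀ j < 5, ∀ j' < 5, K.nth K.xsL j = K.nth K.xsL j' → j = j' := by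
  decide +kernel

private theorem Z8_xs_O : ∀ s ∈ ([8, 23, 38, 46, 104] : List ℕ), ∃ j < 5, K.nth K.xsL j = s := by
  decide +kernel

private theorem Z8_xs_O' : ∀ j < 5, K.nth K.xsL j ∈ ([8, 23, 38, 46, 104] : List ℕ) := by
  decide +kernel

private theorem Z8_rho_small (w : List (Bool × Bool)) (k j : ℕ) (hj : j < 5) :
    rho w (k, j) = if k = 0 then (0, 40000 + j) else (k - 1, K.nth K.xsL j) := by
  unfold rho
  rw [if_pos hj]

private theorem Z8_rho_big (w : List (Bool × Bool)) (k v : ℕ) :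
    rho w (k, v + 5) = lamA w k (K.nth (K.locL (kd w k)) v) := by
  unfold rho
  rw [if_neg (by simp)]
  simp

private theorem Z8_lam_lt (w : List (Bool × Bool)) (k s : ℕ) (hs : s < 5) :
    lamA w k s = if k = 0 then (0, 40000 + sw (rv w 0) s) else (k - 1, K.nth K.xsL (sw (rv w k) s)) := by
  unfold lamA
  rw [if_pos hs]

private theorem Z8_lam_mid (w : List (Bool × Bool)) (k s : ℕ) (hs : s < 5) :
    lamA w k (5 + s) = (k, K.nth K.xsL s) := by
  unfold lamA
  rw [if_neg (by omega), if_pos (by omega), Nat.add_sub_cancel_left]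

private theorem Z8_lam_big (w : List (Bool × Bool)) (k s : ℕ) (hs : 10 ≤ s) :
    lamA w k s = (k, Z8_sc (kd w k) s) := by
  unfold lamA Z8_sc
  rw [if_neg (by omega), if_neg (by omega)]
  split_ifs <;> rfl

/-- The names of the vertices of a copy of the template. -/
private theorem Z8_lbl (w : List (Bool × Bool)) (k v : ℕ) :
    rho w (lbl (kd w k) (rv w k) k v) = lamA w k (K.nth (K.locL (kd w k)) v) := by
  unfold lbl
  by_cases h1 : v ∈ inn (kd w k)
  · rw [if_pos h1]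
    obtain ⟨e1, e2⟩ := Z8_C (kd w k) v h1
    rw [e1, Z8_rho_small w k _ (Z8_sw _ _ e2), Z8_lam_lt w k _ e2]
    by_cases hk : k = 0
    · rw [if_pos hk, if_pos hk, hk]
    · rw [if_neg hk, if_neg hk]
  · rw [if_neg h1]
    by_cases h2 : v ∈ out (kd w k)
    · rw [if_pos h2]
      obtain ⟨e1, e2⟩ := Z8_D (kd w k) v h2
      rw [e1, Z8_rho_small w (k + 1) _ e2, Z8_lam_mid w k _ e2, if_neg (Nat.succ_ne_zero k), Nat.add_sub_cancel]
    · rw [if_neg h2, Z8_rho_big]

private theorem Z8_sub (g : ℕ × ℕ → ℕ × ℕ) (S T F : Finset (ℕ × ℕ)) (h : ∀ p ∈ T, ∃ q ∈ S, g q = p) (hF : F.Nonempty)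
    (hFT : F ⊆ T) : ∃ G : Finset (ℕ × ℕ), G.Nonempty ∧ G ⊆ S ∧ G.image g = F := by
  refine ⟨S.filter (fun q => g q ∈ F), ?_, Finset.filter_subset _ _, ?_⟩
  · obtain ⟨p, hp⟩ := hF
    obtain ⟨q, hq, hqp⟩ := h p (hFT hp)
    exact ⟨q, Finset.mem_filter.mpr ⟨hq, by rw [hqp]; exact hp⟩⟩
  · ext p
    simp only [Finset.mem_image, Finset.mem_filter]
    constructor
    · rintro ⟨q, ⟨_, hq⟩, rfl⟩
      exact hq
    · intro hp
      obtain ⟨q, hq, hqp⟩ := h p (hFT hp)
      exact ⟨q, ⟨hq, by rw [hqp]; exact hp⟩, hqp⟩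

private theorem Z8_get (w : List (Bool × Bool)) (k : ℕ) (cp rev : Bool) :
    w[k]? = some (cp, rev) ↔ k < w.length ∧ kd w k = cp ∧ rv w k = rev := by
  unfold kd rv
  rw [List.getD_eq_getElem?_getD]
  constructor
  · intro h
    obtain ⟨hk, _⟩ := List.getElem?_eq_some_iff.mp h
    rw [h]
    exact ⟨hk, rfl, rfl⟩
  · rintro ⟨hk, h1, h2⟩
    rw [List.getElem?_eq_getElem hk] at h1 h2 ⊢
    simp only [Option.getD_some] at h1 h2
    rw [← h1, ← h2]

private theorem Z8_tO (w : List (Bool × Bool)) (p : ℕ × ℕ) :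
    p ∈ tO w ↔ ∃ s ∈ ([8, 23, 38, 46, 104] : List ℕ), (w.length - 1, s) = p := by
  unfold tO lamB
  rw [bs_mO]
  simp only [Finset.mem_image, Finset.mem_insert, Finset.mem_singleton, List.mem_cons, List.not_mem_nil, or_false]

theorem Z8_image (w : List (Bool × Bool)) (hw : w ≠ []) : Q7 w = (fun F => F.image (rho w)) '' chain w := by
  have hn : 0 < w.length := List.length_pos_iff.mpr hw
  ext F
  constructor
  · rintro (⟨k, hk, hF, m, hm, hFm⟩ | ⟨hF, hFt⟩ | ⟨hF, hFt⟩)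
    · obtain ⟨f, hf, h1, h2, rfl⟩ := Z8_B (kd w k) m hm
      rw [Z8_bs_mk] at hFm
      obtain ⟨G, hG, hGS, hGF⟩ := Z8_sub (rho w) (f.toFinset.image (lbl (kd w k) (rv w k) k))
        (F := F) (T := F) (fun p hp => by
          have hp' := hFm hp
          simp only [Finset.mem_image, List.mem_toFinset, List.mem_map] at hp'
          obtain ⟨s, ⟨v, hv, rfl⟩, rfl⟩ := hp'
          refine ⟨lbl (kd w k) (rv w k) k v, ?_, Z8_lbl w k v⟩
          exact Finset.mem_image.mpr ⟨v, List.mem_toFinset.mpr hv, rfl⟩) hF (Finset.Subset.refl _)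
      exact ⟨G, ⟨hG, Or.inr (Or.inr ⟨k, kd w k, rv w k, (Z8_get w k _ _).mpr ⟨hk, rfl, rfl⟩, f, hf,
        (Z8_ne_iff _ _).mpr h1, (Z8_ne_iff _ _).mpr h2, hGS⟩)⟩, hGF⟩
    · obtain ⟨G, hG, hGS, hGF⟩ := Z8_sub (rho w) ((range 5).image (fun j => (0, j)))
        (F := F) (T := F) (fun p hp => by
          have hp' := hFt hp
          unfold tX at hp'
          simp only [Finset.mem_image, Finset.mem_range] at hp'
          obtain ⟨j, hj, rfl⟩ := hp'
          refine ⟨(0, j), ?_, ?_⟩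
          · exact Finset.mem_image.mpr ⟨j, Finset.mem_range.mpr hj, rfl⟩
          · rw [Z8_rho_small w 0 j hj, if_pos rfl]) hF (Finset.Subset.refl _)
      exact ⟨G, ⟨hG, Or.inl hGS⟩, hGF⟩
    · obtain ⟨G, hG, hGS, hGF⟩ := Z8_sub (rho w) ((range 5).image (fun j => (w.length, j)))
        (F := F) (T := F) (fun p hp => by
          have hp' := (Z8_tO w p).mp (hFt hp)
          obtain ⟨s, hs, rfl⟩ := hp'
          obtain ⟨j, hj, hjs⟩ := Z8_xs_O s hs
          refine ⟨(w.length, j), ?_, ?_⟩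
          · exact Finset.mem_image.mpr ⟨j, Finset.mem_range.mpr hj, rfl⟩
          · rw [Z8_rho_small w _ j hj, if_neg (by omega), hjs]) hF (Finset.Subset.refl _)
      exact ⟨G, ⟨hG, Or.inr (Or.inl hGS)⟩, hGF⟩
  · rintro ⟨G, ⟨hG, h⟩, rfl⟩
    have hne : (G.image (rho w)).Nonempty := hG.image _
    rcases h with h | h | ⟨k, cp, rev, hk, f, hf, h1, h2, h⟩
    · refine Or.inr (Or.inl ⟨hne, ?_⟩)
      intro p hp
      obtain ⟨q, hq, rfl⟩ := Finset.mem_image.mp hp
      obtain ⟨j, hj, rfl⟩ := Finset.mem_image.mp (h hq)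
      have hj' := Finset.mem_range.mp hj
      rw [Z8_rho_small w 0 j hj', if_pos rfl]
      unfold tX
      simp only [Finset.mem_image, Finset.mem_range]
      exact ⟨j, hj', rfl⟩
    · refine Or.inr (Or.inr ⟨hne, ?_⟩)
      intro p hp
      obtain ⟨q, hq, rfl⟩ := Finset.mem_image.mp hp
      obtain ⟨j, hj, rfl⟩ := Finset.mem_image.mp (h hq)
      have hj' := Finset.mem_range.mp hj
      rw [Z8_rho_small w _ j hj', if_neg (by omega), Z8_tO]
      exact ⟨_, Z8_xs_O' j hj', rfl⟩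
    · obtain ⟨hk', rfl, rfl⟩ := (Z8_get w k _ _).mp hk
      refine Or.inl ⟨k, hk', hne, _, Z8_A (kd w k) f hf ((Z8_ne_iff _ _).mp h1) ((Z8_ne_iff _ _).mp h2), ?_⟩
      rw [Z8_bs_mk]
      intro p hp
      obtain ⟨q, hq, rfl⟩ := Finset.mem_image.mp hp
      obtain ⟨v, hv, rfl⟩ := Finset.mem_image.mp (h hq)
      rw [Z8_lbl]
      simp only [Finset.mem_image, List.mem_toFinset, List.mem_map]
      exact ⟨_, ⟨v, List.mem_toFinset.mp hv, rfl⟩, rfl⟩

/-- The vertices of the connected sum. -/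
private theorem Z8_verts (w : List (Bool × Bool)) (p : ℕ × ℕ) (hp : p ∈ verts (chain w)) :
    p.2 < 5 ∨ ∃ f ∈ facets (kd w p.1), ∃ v ∈ f, v ∉ inn (kd w p.1) ∧ v ∉ out (kd w p.1) ∧ p.2 = v + 5 := by
  obtain ⟨F, ⟨_, h⟩, hpF⟩ := hp
  rcases h with h | h | ⟨k, cp, rev, hk, f, hf, -, -, h⟩
  · obtain ⟨j, hj, rfl⟩ := Finset.mem_image.mp (h hpF)
    exact Or.inl (Finset.mem_range.mp hj)
  · obtain ⟨j, hj, rfl⟩ := Finset.mem_image.mp (h hpF)
    exact Or.inl (Finset.mem_range.mp hj)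
  · obtain ⟨v, hv, rfl⟩ := Finset.mem_image.mp (h hpF)
    obtain ⟨hk', rfl, rfl⟩ := (Z8_get w k _ _).mp hk
    unfold lbl
    by_cases h1 : v ∈ inn (kd w k)
    · rw [if_pos h1]
      exact Or.inl (Z8_sw _ _ (Z8_C _ v h1).2)
    · rw [if_neg h1]
      by_cases h2 : v ∈ out (kd w k)
      · rw [if_pos h2]
        exact Or.inl (Z8_D _ v h2).2
      · rw [if_neg h2]
        exact Or.inr ⟨f, hf, v, List.mem_toFinset.mp hv, h1, h2, rfl⟩

/-- A small vertex and a big vertex. -/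
private theorem Z8_small_big (w : List (Bool × Bool)) (k j k' : ℕ) (hj : j < 5) (f : List ℕ)
    (hf : f ∈ facets (kd w k')) (v : ℕ) (hv : v ∈ f) (h1 : v ∉ inn (kd w k')) (h2 : v ∉ out (kd w k')) :
    rho w (k, j) ≠ rho w (k', v + 5) := by
  obtain ⟨e1, e2, e3⟩ := Z8_F (kd w k') f hf v hv h1 h2
  rw [Z8_rho_small w k j hj, Z8_rho_big, Z8_lam_big w k' _ e1]
  by_cases hk : k = 0
  · rw [if_pos hk]
    intro h
    have h' : 40000 + j = Z8_sc (kd w k') (K.nth (K.locL (kd w k')) v) := (Prod.ext_iff.mp h).2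
    rw [← h'] at e3
    omega
  · rw [if_neg hk]
    intro h
    have h' : K.nth K.xsL j = Z8_sc (kd w k') (K.nth (K.locL (kd w k')) v) := (Prod.ext_iff.mp h).2
    apply e2
    rw [← h']
    exact (Z8_xs_mem j hj).1

theorem Z8_inj (w : List (Bool × Bool)) (hw : w ≠ []) : Set.InjOn (rho w) (verts (chain w)) := by
  rintro ⟨k, a⟩ hp ⟨k', a'⟩ hq h
  rcases Z8_verts w _ hp with ha | ⟨f, hf, v, hv, h1, h2, ha⟩ <;>
    rcases Z8_verts w _ hq with ha' | ⟨f', hf', v', hv', h1', h2', ha'⟩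
  · dsimp only at ha ha'
    rw [Z8_rho_small w k a ha, Z8_rho_small w k' a' ha'] at h
    by_cases hk : k = 0 <;> by_cases hk' : k' = 0
    · rw [if_pos hk, if_pos hk'] at h
      have h' : 40000 + a = 40000 + a' := (Prod.ext_iff.mp h).2
      rw [hk, hk', show a = a' by omega]
    · rw [if_pos hk, if_neg hk'] at h
      have h' : 40000 + a = K.nth K.xsL a' := (Prod.ext_iff.mp h).2
      have := (Z8_xs_mem a' ha').2
      omega
    · rw [if_neg hk, if_pos hk'] at h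
      have h' : K.nth K.xsL a = 40000 + a' := (Prod.ext_iff.mp h).2
      have := (Z8_xs_mem a ha).2
      omega
    · rw [if_neg hk, if_neg hk'] at h
      have h' : k - 1 = k' - 1 := (Prod.ext_iff.mp h).1
      have h'' : K.nth K.xsL a = K.nth K.xsL a' := (Prod.ext_iff.mp h).2
      rw [show k = k' by omega, Z8_xs_inj a ha a' ha' h'']
  · dsimp only at ha ha' hf' h1' h2'
    subst ha'
    exact absurd h (Z8_small_big w k a k' ha f' hf' v' hv' h1' h2')
  · dsimp only at ha ha' hf h1 h2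
    subst ha
    exact absurd h.symm (Z8_small_big w k' a' k ha' f hf v hv h1 h2)
  · dsimp only at ha ha' hf h1 h2 hf' h1' h2'
    subst ha
    subst ha'
    obtain ⟨e1, e2, e3⟩ := Z8_F (kd w k) f hf v hv h1 h2
    obtain ⟨e1', e2', e3'⟩ := Z8_F (kd w k') f' hf' v' hv' h1' h2'
    rw [Z8_rho_big, Z8_rho_big, Z8_lam_big w k _ e1, Z8_lam_big w k' _ e1'] at h
    have hk : k = k' := (Prod.ext_iff.mp h).1
    subst hk
    have h' : Z8_sc (kd w k) (K.nth (K.locL (kd w k)) v) = Z8_sc (kd w k) (K.nth (K.locL (kd w k)) v') :=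
      (Prod.ext_iff.mp h).2
    rw [Z8_G (kd w k) f hf f' hf' v hv v' hv' h1 h2 h1' h2' h']

end Pool.Agent.MP_455d73_gt.CS
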