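import Pool.Agent.Lib.MP_455d73_gt.Mg.G016

/-!
TASK H2 (medium, finite): every chain of faces is contained in one of the listed flags.

The masks of `faceL` have at most four bits (`1, 7, 18, 22, 11` masks with `0, 1, 2, 3, 4` bits). Two masks of a chain with the same number of bits are equal. So a chain is given by at most one mask `c_j` with `j` bits
for each `j ≤ 4`. Kernel computation (`decide +kernel`, early pruning): for `c_4` in the list of the masks with four bits or absent, for `c_3` among the masks with three bits contained in it or absent, and so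
on down to `c_0`: some flag of `FL0 ++ FL5` contains all the present `c_j`. Formulate it for instance with a recursive function: `ext : List ℕ → Bool`, or as
`∀ c4 ∈ …, ∀ c3 ∈ …, (c3 compatible) → ∀ c2 ∈ …, …` where the absent mask is coded by repeating the preceding one: i.e. show: for every `c_4 ∈ faceL`, `c_3 ∈ faceL`, `c_3 ⊆ c_4`, `c_2 ⊆ c_3`, `c_1 ⊆ c_2`, `c_0 ⊆ c_1`
(all in `faceL`, not necessarily with strictly decreasing number of bits) there is a flag containing all five. (The number of such 5-tuples is a few ten thousand; nested `∀ x ∈ faceL, Nat.land x y = x → …` is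
evaluated lazily.) Then sort the chain `C`: it has at most five elements (their numbers of bits are different), so it is `{c_0, …, c_4}` for such a 5-tuple (repeat elements; `C` empty: take any flag).
Alternatively, prove by induction that a chain with fewer than five elements can be enlarged.
-/

set_option autoImplicit false

open Finset
open scoped Classical

namespace Pool.Agent.MP_455d73_gt.CS

open K

/-- `H2_go n c F`: every strictly decreasing chain of faces strictly below `c` lies in a member of `F` (recursive kernel check). -/
def H2_go : ℕ → ℕ → List (List ℕ) → Bool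
  | 0, _, _ => false
  | n + 1, c, F => (!F.isEmpty) && faceL.all (fun x =>
      Nat.beq x c || (!(Nat.beq (Nat.land x c) x)) || H2_go n x (F.filter (fun f => f.any (fun y => Nat.beq x y))))

private theorem H2_top : H2_go 6 127 (FL0 ++ FL5) = true := by decide +kernel

private theorem H2_below : faceL.all (fun x => Nat.beq (Nat.land x 127) x && (!(Nat.beq x 127))) = true := by
  decide +kernel

private theorem H2_beq {a b : ℕ} : Nat.beq a b = true ↔ a = b :=
  ⟨fun h => Nat.eq_of_beq_eq_true h, fun h => by subst h; exact Nat.beq_refl a⟩

private theorem H2_main (n : ℕ) : ∀ (c : ℕ) (F : List (List ℕ)), H2_go n c F = true →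
    ∀ C : Finset ℕ, (∀ a ∈ C, a ∈ faceL) →
      (∀ a ∈ C, ∀ b ∈ C, Nat.land a b = a ∨ Nat.land a b = b) →
      (∀ a ∈ C, Nat.land a c = a ∧ a ≠ c) → ∃ f ∈ F, ∀ a ∈ C, a ∈ f := by
  induction n with
  | zero =>
    intro c F h
    exact absurd h (by simp [H2_go])
  | succ n ih =>
    intro c F h C hC hch hb
    rw [H2_go, Bool.and_eq_true, List.all_eq_true] at h
    obtain ⟨h1, h2⟩ := h
    rcases C.eq_empty_or_nonempty with h0 | h0
    · subst h0
      cases F with
      | nil => simp at h1
      | cons f F => exact ⟨f, by simp, by simp⟩
    · have hx : C.max' h0 ∈ C := C.max'_mem h0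
      have hle : ∀ a ∈ C, a ≤ C.max' h0 := fun a ha => C.le_max' a ha
      generalize C.max' h0 = x at hx hle
      have hax : ∀ a ∈ C, Nat.land a x = a := by
        intro a ha
        rcases hch a ha x hx with h | h
        · exact h
        · have h3 : x ≤ a := by
            have h4 : a &&& x ≤ a := Nat.and_le_left
            have h5 : a &&& x = x := h
            omega
          have h6 : a = x := le_antisymm (hle a ha) h3
          subst h6
          exact h
      have h3 := h2 x (hC x hx)
      have h4 : Nat.beq x c = false := by
        rcases hq : Nat.beq x c with _ | _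
        · rfl
        · exact absurd (H2_beq.1 hq) (hb x hx).2
      have h5 : Nat.beq (Nat.land x c) x = true := H2_beq.2 (hb x hx).1
      rw [h4, h5] at h3
      have h6 : H2_go n x (F.filter (fun f => f.any (fun y => Nat.beq x y))) = true := by
        simpa using h3
      obtain ⟨f, hf, hall⟩ := ih x _ h6 (C.erase x) (fun a ha => hC a (Finset.mem_of_mem_erase ha))
        (fun a ha b hb' => hch a (Finset.mem_of_mem_erase ha) b (Finset.mem_of_mem_erase hb'))
        (fun a ha => ⟨hax a (Finset.mem_of_mem_erase ha), Finset.ne_of_mem_erase ha⟩)
      rw [List.mem_filter, List.any_eq_true] at hf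
      obtain ⟨hf1, y, hy, hxy⟩ := hf
      have hxy' : x = y := H2_beq.1 hxy
      subst hxy'
      refine ⟨f, hf1, fun a ha => ?_⟩
      by_cases hax' : a = x
      · subst hax'
        exact hy
      · exact hall a (Finset.mem_erase.2 ⟨hax', ha⟩)

theorem chain_flag (C : Finset ℕ) (hC : ∀ a ∈ C, a ∈ faceL) (hch : ∀ a ∈ C, ∀ b ∈ C, Nat.land a b = a ∨ Nat.land a b = b) :
    ∃ f ∈ FL0 ++ FL5, ∀ a ∈ C, a ∈ f := by
  refine H2_main 6 127 _ H2_top C hC hch (fun a ha => ?_)
  have h := List.all_eq_true.1 H2_below a (hC a ha)
  rw [Bool.and_eq_true] at h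
  refine ⟨H2_beq.1 h.1, fun h2 => ?_⟩
  rw [H2_beq.2 h2] at h
  exact absurd h.2 (by simp)

end Pool.Agent.MP_455d73_gt.CS
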