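import Pool.Agent.Lib.MP_455d73_gt.Mg.G022
import Pool.Agent.Lib.MP_455d73_gt.CS.B6
import Pool.Agent.Lib.MP_455d73_gt.Mg.G027
import Pool.Agent.Lib.MP_455d73_gt.Mg.G025
import Pool.Agent.Lib.MP_455d73_gt.Mg.G028
import Pool.Agent.Lib.MP_455d73_gt.Mg.G026
import Pool.Agent.Lib.MP_455d73_gt.CS.Z3
import Pool.Agent.Lib.MP_455d73_gt.CS.Z4
import Pool.Agent.Lib.MP_455d73_gt.CS.Z5
import Pool.Agent.Lib.MP_455d73_gt.CS.Z8
import Pool.Agent.Lib.MP_455d73_gt.Mg.G019

/-!
Campaign CS: assembly.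
-/

set_option autoImplicit false

open Finset
open scoped Classical

namespace Pool.Agent.MP_455d73_gt.CS

theorem flip_all (w : List (Bool × Bool)) (hw : w ≠ []) : FlipEq (KW w) ((fun F => F.image (rho w)) '' chain w) := by
  rw [KW_eq w hw, ← Z8_image w hw]
  refine (Z1_flip w hw bead_eqv).trans ?_
  rw [Z2_eq w hw]
  refine (Z3_flip w hw shell_eqv).trans ((Z4_flip w hw endI_eqv endO_eqv).trans ((Z5_flip w hw start_eqv).trans ?_))
  rw [Z6_eq w hw]
  exact Z7_flip w hw abs_eqv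

theorem main (w : List (Bool × Bool)) (hw : w ≠ []) :
    ∃ Λ : Subgroup (Equiv.Perm (Hyp 4)), Uniform Λ ∧ QuotPL Λ (real (chain w)) := by
  have hc : gR.Compat (sg w) := ⟨sg_sq w, fun i j hij => sg_rel w i j hij⟩
  refine ⟨gR.stab (sg w) (x0 w hw), gR.stab_uniform (sg w) (x0 w hw), ?_⟩
  refine ⟨Set (Fin 7) × Set (Ch w), inferInstance, gR.X (sg w), ?_, ?_⟩
  · exact gR.isModel (sg w) hc (x0 w hw) (sg_trans w hw)
  · refine (X_KW w).trans ((flip_all w hw).plHomeo.trans ?_)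
    have h := rename (chain w) (rho w) (Z8_inj w hw)
    have e : (fun F : Finset (ℕ × ℕ) => @Finset.image _ _ (fun a b => Classical.propDecidable (a = b)) (rho w) F) =
        (fun F => F.image (rho w)) := by
      funext F
      ext v
      simp only [Finset.mem_image]
    rw [e] at h
    exact h.symm

end Pool.Agent.MP_455d73_gt.CS
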