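import Pool.Agent.Lib.MP_455d73_gt.CS.St

/-!
Campaign CS: generalised bistellar moves (definitions only).
-/

set_option autoImplicit false

open Finset
open scoped Classical

namespace Pool.Agent.MP_455d73_gt.CS

noncomputable section

variable {V : Type}

/-- A set of simplices closed under passing to nonempty subsets, without the empty simplex. -/
def Down (K : Set (Finset V)) : Prop := (∀ F ∈ K, F.Nonempty) ∧ ∀ F ∈ K, ∀ G ⊆ F, G.Nonempty → G ∈ K

/-- The complex `K'` arises from `K` by the move which replaces the simplex `A` by the simplex `B`; the link of `A` in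
`K` is the join of the boundary of `B` and a complex. -/
structure Flip (K : Set (Finset V)) (A B : Finset V) (K' : Set (Finset V)) : Prop where
  down : Down K
  A_ne : A.Nonempty
  B_ne : B.Nonempty
  disj : Disjoint A B
  B_not : B ∉ K
  link : ∀ F ∈ K, A ⊆ F → ∀ B' ⊂ B, (F \ B) ∪ B' ∈ K
  eq : K' = {F | (F ∈ K ∧ ¬ A ⊆ F) ∨ (B ⊆ F ∧ ¬ A ⊆ F ∧ (F \ B) ∪ A ∈ K)}

/-- The complexes are related by a sequence of moves and inverse moves. -/
def FlipEq (K K' : Set (Finset V)) : Prop := Relation.EqvGen (fun K K' => ∃ A B, Flip K A B K') K K'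

/-- The map of the move: `α = min_A z` is taken from the coordinates in `A` and distributed to those in `B`. -/
def mv (A B : Finset V) (hA : A.Nonempty) (z : V → ℝ) : V → ℝ := fun v =>
  z v - (if v ∈ A then A.inf' hA z else 0) + (if v ∈ B then A.inf' hA z * (A.card / B.card) else 0)

/-- The vertices of a complex. -/
def verts (K : Set (Finset V)) : Set V := {v | ∃ F ∈ K, v ∈ F}

end

end Pool.Agent.MP_455d73_gt.CS
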