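import Pool.Agent.Lib.MP_455d73_gt.Mg.G018

/-!
TASK M3 (medium): the coordinates in the barycentric subdivision are piecewise affine.

For a finset `C` of faces which is a chain, the vectors `(b A, 1)`, `A ∈ C`, in `(Fin n → ℝ) × ℝ` are linearly independent: order the chain
`A₁ ⊂ A₂ ⊂ … ⊂ A_m`; given `∑ c_j (b A_j, 1) = 0`, suppose not all `c_j` are zero. (By uniqueness of coordinates: with
`P = ∑ c_j⁺ > 0` (the sum of the `c_j` is 0), the point `∑ (c_j⁺/P) b A_j = ∑ (c_j⁻/P) b A_j` has the two `Bary` coordinates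
`c⁺/P` and `c⁻/P`, so `c⁺ = c⁻`, `c = 0`: `CX.bary_unique`.) So there is a linear map `L` from `(Fin n → ℝ) × ℝ` to `(Set I → ℝ)` with
`L (b A, 1)` = the indicator of `A` for `A ∈ C` (`LinearIndependent` gives a left inverse, or extend to a basis); put
`β_C k = L (k, 1)`, an affine map. The piece is `T_C = {k | 0 ≤ β_C k A ∀ A, β_C k A = 0 for A ∉ C, ∑ β_C k A = 1, ∑ β_C k A • b A = k}`, a
convex polyhedron (finitely many affine equalities and inequalities; `HPoly.le`, `HPoly.iInter`, `HPoly.inter`). For `k ∈ T_C` one has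
`Bary k (β_C k)`, so `R.t k = β_C k` (`CX.t_eq`). Each `k ∈ P1` is in `T_C` for `C` = the support of `R.t k`: `β_C k = R.t k` by
linearity. Apply `PA_mk'` with the finite index type of all finsets `C` (use a piece `∅`-like or the whole construction with `if` for
finsets which are not chains of faces, e.g. the index type `{C : Finset (Set I) // …}`).
-/

set_option autoImplicit false

open Finset
open scoped Classical

namespace Pool.Agent.MP_455d73_gt.CS

variable {n : ℕ} {I : Type}

theorem M3_eq {ι : Type} [Fintype ι] (f g : (ι → ℝ) →ᵃ[ℝ] ℝ) : HPoly {x | f x = g x} := by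
  have h : {x | f x = g x} = {x | f x ≤ g x} ∩ {x | g x ≤ f x} := by
    ext x
    simp only [Set.mem_setOf_eq, Set.mem_inter_iff]
    exact le_antisymm_iff
  rw [h]
  exact (HPoly.le f g).inter (HPoly.le g f)

/-- Sums over the members of a finset as sums over all indices. -/
theorem M3_sum {I : Type} [Fintype I] {M : Type} [AddCommGroup M] [Module ℝ M] (C : Finset (Set I))
    (g : C → ℝ) (v : Set I → M) :
    ∑ A : C, g A • v A = ∑ A : Set I, (if h : A ∈ C then g ⟨A, h⟩ else 0) • v A := by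
  have h1 : ∑ A : C, g A • v A =
      ∑ A : C, (if h : (A : Set I) ∈ C then g ⟨A, h⟩ else 0) • v A := by
    refine Finset.sum_congr rfl fun A _ => ?_
    rw [dif_pos A.2]
  rw [h1, Finset.sum_coe_sort C (fun A => (if h : A ∈ C then g ⟨A, h⟩ else 0) • v A)]
  refine Finset.sum_subset (Finset.subset_univ C) fun A _ hA => ?_
  rw [dif_neg hA, zero_smul]

theorem CX.b_indep (R : CX n I) [Fintype I] (C : Finset (Set I)) (hC : ∀ A ∈ C, A ∈ R.faces)
    (hc : ∀ A ∈ C, ∀ B ∈ C, A ⊆ B ∨ B ⊆ A) :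
    LinearIndependent ℝ (fun A : C => ((R.b A, 1) : Mk n)) := by
  rw [Fintype.linearIndependent_iff]
  intro g hg
  rw [M3_sum C g (fun A => ((R.b A, 1) : Mk n))] at hg
  set c : Set I → ℝ := fun A => if h : A ∈ C then g ⟨A, h⟩ else 0 with hcdef
  have hcC : ∀ A, c A ≠ 0 → A ∈ C := by
    intro A hA
    by_contra hn
    exact hA (by rw [hcdef]; exact dif_neg hn)
  have hs1 : ∑ A, c A • R.b A = 0 := by
    have := congrArg Prod.fst hg
    rw [Prod.fst_sum] at this
    exact this
  have hs2 : ∑ A, c A = 0 := by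
    have := congrArg Prod.snd hg
    rw [Prod.snd_sum] at this
    simp only [Prod.smul_snd, smul_eq_mul, mul_one] at this
    exact this
  set P : ℝ := ∑ A, max (c A) 0 with hP
  have hP' : ∑ A, max (-(c A)) 0 = P := by
    have h1 : ∑ A, (max (c A) 0 - max (-(c A)) 0) = ∑ A, c A := by
      refine Finset.sum_congr rfl fun A _ => ?_
      rcases le_total 0 (c A) with h | h
      · rw [max_eq_left h, max_eq_right (by linarith)]; ring
      · rw [max_eq_right h, max_eq_left (by linarith)]; ring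
    rw [Finset.sum_sub_distrib, hs2] at h1
    linarith
  have hvec : ∑ A, max (c A) 0 • R.b A = ∑ A, max (-(c A)) 0 • R.b A := by
    have h1 : ∑ A, (max (c A) 0 • R.b A - max (-(c A)) 0 • R.b A) = ∑ A, c A • R.b A := by
      refine Finset.sum_congr rfl fun A _ => ?_
      rw [← sub_smul]
      congr 1
      rcases le_total 0 (c A) with h | h
      · rw [max_eq_left h, max_eq_right (by linarith)]; ring
      · rw [max_eq_right h, max_eq_left (by linarith)]; ring
    rw [Finset.sum_sub_distrib, hs1] at h1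
    exact sub_eq_zero.mp h1
  have hPnn : 0 ≤ P := Finset.sum_nonneg fun A _ => le_max_right _ _
  have hpos1 : ∀ A, max (c A) 0 / P ≠ 0 → A ∈ C := by
    intro A hA
    refine hcC A fun h0 => hA ?_
    rw [h0]; simp
  have hpos2 : ∀ A, max (-(c A)) 0 / P ≠ 0 → A ∈ C := by
    intro A hA
    refine hcC A fun h0 => hA ?_
    rw [h0]; simp
  have hall : ∀ A, c A = 0 := by
    rcases hPnn.lt_or_eq with hlt | heq
    · have hb1 : R.Bary (∑ A, (max (c A) 0 / P) • R.b A) (fun A => max (c A) 0 / P) := by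
        refine ⟨fun A => div_nonneg (le_max_right _ _) hPnn, fun A hA => hC A (hpos1 A hA),
          fun A B hA hB => hc A (hpos1 A hA) B (hpos1 B hB), ?_, rfl⟩
        rw [← Finset.sum_div, ← hP, div_self hlt.ne']
      have hb2 : R.Bary (∑ A, (max (c A) 0 / P) • R.b A) (fun A => max (-(c A)) 0 / P) := by
        refine ⟨fun A => div_nonneg (le_max_right _ _) hPnn, fun A hA => hC A (hpos2 A hA),
          fun A B hA hB => hc A (hpos2 A hA) B (hpos2 B hB), ?_, ?_⟩
        · rw [← Finset.sum_div, hP', div_self hlt.ne']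
        · simp only [div_eq_inv_mul, mul_smul]
          rw [← Finset.smul_sum, ← Finset.smul_sum, hvec]
      have heq := R.bary_unique _ _ _ hb1 hb2
      intro A
      have h1 : max (c A) 0 / P = max (-(c A)) 0 / P := congrFun heq A
      have h2 : max (c A) 0 = max (-(c A)) 0 := by
        field_simp at h1
        exact h1
      rcases le_total 0 (c A) with h | h
      · rw [max_eq_left h, max_eq_right (by linarith)] at h2
        exact h2
      · rw [max_eq_right h, max_eq_left (by linarith)] at h2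
        linarith
    · intro A
      have h1 : max (c A) 0 = 0 :=
        (Finset.sum_eq_zero_iff_of_nonneg (fun A _ => le_max_right _ _)).mp (hP.symm.trans heq.symm) A
          (Finset.mem_univ A)
      have h2 : max (-(c A)) 0 = 0 :=
        (Finset.sum_eq_zero_iff_of_nonneg (fun A _ => le_max_right _ _)).mp (hP'.trans heq.symm) A
          (Finset.mem_univ A)
      have h3 := le_max_left (c A) 0
      have h4 := le_max_left (-(c A)) 0
      linarith
  intro A
  have := hall A
  simp only [hcdef] at this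
  rw [dif_pos A.2] at this
  exact this

/-- The linear map which maps the vectors of a chain to the unit vectors. -/
theorem M3_lin [Fintype I] (R : CX n I) (C : Finset (Set I)) (hC : ∀ A ∈ C, A ∈ R.faces)
    (hc : ∀ A ∈ C, ∀ B ∈ C, A ⊆ B ∨ B ⊆ A) :
    ∃ L : Mk n →ₗ[ℝ] (Set I → ℝ), ∀ A ∈ C, L (R.b A, 1) = fun B => if B = A then 1 else 0 := by
  have hli := R.b_indep C hC hc
  rw [linearIndependent_iff_injective_finsuppLinearCombination] at hli
  obtain ⟨g, hg⟩ := LinearMap.exists_leftInverse_of_injective _ (LinearMap.ker_eq_bot.mpr hli)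
  refine ⟨LinearMap.pi fun B => if h : B ∈ C then (Finsupp.lapply ⟨B, h⟩).comp g else 0,
    fun A hA => ?_⟩
  have h1 : g (R.b A, 1) = Finsupp.single ⟨A, hA⟩ 1 := by
    have := LinearMap.congr_fun hg (Finsupp.single ⟨A, hA⟩ 1)
    simpa using this
  funext B
  rw [LinearMap.pi_apply]
  by_cases hB : B ∈ C
  · rw [dif_pos hB, LinearMap.comp_apply, h1, Finsupp.lapply_apply, Finsupp.single_apply]
    simp only [Subtype.mk.injEq, eq_comm]
  · rw [dif_neg hB, LinearMap.zero_apply, if_neg]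
    rintro rfl
    exact hB hA

/-- The affine map `k ↦ L (k, 1)`. -/
noncomputable def M3_aff {κ : Type} (L : Mk n →ₗ[ℝ] (κ → ℝ)) : (Fin n → ℝ) →ᵃ[ℝ] (κ → ℝ) :=
  (L.comp (LinearMap.inl ℝ (Fin n → ℝ) ℝ)).toAffineMap + AffineMap.const ℝ (Fin n → ℝ) (L (0, 1))

theorem M3_aff_apply {κ : Type} (L : Mk n →ₗ[ℝ] (κ → ℝ)) (k : Fin n → ℝ) :
    M3_aff L k = L (k, 1) := by
  have h : M3_aff L k = L (k, 0) + L (0, 1) := rfl
  rw [h, ← map_add]
  simp

/-- The coordinates which belong to a chain. -/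
theorem M3_simplex [Fintype I] (C : Finset (Set I)) :
    HPoly {t : Set I → ℝ | (∀ A, 0 ≤ t A) ∧ (∀ A, A ∉ C → t A = 0) ∧ ∑ A, t A = 1} := by
  have h1 : HPoly (⋂ A : Set I, {t : Set I → ℝ | 0 ≤ t A}) :=
    HPoly.iInter _ fun A =>
      HPoly.le 0 (LinearMap.proj (R := ℝ) (φ := fun _ : Set I => ℝ) A).toAffineMap
  have h2 : HPoly (⋂ A : {A : Set I // A ∉ C}, {t : Set I → ℝ | t A.1 = 0}) :=
    HPoly.iInter _ fun A =>
      M3_eq (LinearMap.proj (R := ℝ) (φ := fun _ : Set I => ℝ) A.1).toAffineMap 0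
  have h3 : HPoly {t : Set I → ℝ | ∑ A, t A = 1} := by
    have h := M3_eq (∑ A : Set I, LinearMap.proj (R := ℝ) (φ := fun _ : Set I => ℝ) A).toAffineMap
      (AffineMap.const ℝ (Set I → ℝ) (1 : ℝ))
    have e : {t : Set I → ℝ | ∑ A, t A = 1} = {t | (∑ A : Set I,
        LinearMap.proj (R := ℝ) (φ := fun _ : Set I => ℝ) A).toAffineMap t =
        (AffineMap.const ℝ (Set I → ℝ) (1 : ℝ)) t} := by
      ext t
      simp
    rw [e]
    exact h
  have h := (h1.inter h2).inter h3
  have e : {t : Set I → ℝ | (∀ A, 0 ≤ t A) ∧ (∀ A, A ∉ C → t A = 0) ∧ ∑ A, t A = 1} =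
      ((⋂ A : Set I, {t : Set I → ℝ | 0 ≤ t A}) ∩
        (⋂ A : {A : Set I // A ∉ C}, {t : Set I → ℝ | t A.1 = 0})) ∩ {t | ∑ A, t A = 1} := by
    ext t
    simp only [Set.mem_setOf_eq, Set.mem_inter_iff, Set.mem_iInter, Subtype.forall, and_assoc]
  rw [e]
  exact h

theorem CX.t_PA [Fintype I] (R : CX n I) : PA R.P1 R.t := by
  have key : ∀ C : {C : Finset (Set I) // (∀ A ∈ C, A ∈ R.faces) ∧
      ∀ A ∈ C, ∀ B ∈ C, A ⊆ B ∨ B ⊆ A},
      ∃ L : Mk n →ₗ[ℝ] (Set I → ℝ), ∀ A ∈ C.1, L (R.b A, 1) = fun B => if B = A then 1 else 0 :=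
    fun C => M3_lin R C.1 C.2.1 C.2.2
  choose L hL using key
  refine PA_mk' (fun C => (M3_aff (L C)) ⁻¹' {t : Set I → ℝ | (∀ A, 0 ≤ t A) ∧
      (∀ A, A ∉ C.1 → t A = 0) ∧ ∑ A, t A = 1} ∩ {k | ∑ A, M3_aff (L C) k A • R.b A = k})
    (fun C => M3_aff (L C)) ?_ ?_ ?_
  · intro C
    refine HPoly.inter ((M3_simplex C.1).preimage _) ?_
    have h1 : HPoly (⋂ j : Fin n, {k : Fin n → ℝ |
        ((∑ A : Set I, (R.b A j) • LinearMap.proj (R := ℝ) (φ := fun _ : Set I => ℝ) A).toAffineMap.comp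
          (M3_aff (L C))) k =
        (LinearMap.proj (R := ℝ) (φ := fun _ : Fin n => ℝ) j).toAffineMap k}) :=
      HPoly.iInter _ fun j => M3_eq _ _
    have e : {k : Fin n → ℝ | ∑ A, M3_aff (L C) k A • R.b A = k} = ⋂ j : Fin n, {k : Fin n → ℝ |
        ((∑ A : Set I, (R.b A j) • LinearMap.proj (R := ℝ) (φ := fun _ : Set I => ℝ) A).toAffineMap.comp
          (M3_aff (L C))) k =
        (LinearMap.proj (R := ℝ) (φ := fun _ : Fin n => ℝ) j).toAffineMap k} := by
      ext k
      simp only [Set.mem_setOf_eq, Set.mem_iInter]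
      rw [funext_iff]
      refine forall_congr' fun j => ?_
      have h2 : ((∑ A : Set I, (R.b A j) • LinearMap.proj (R := ℝ) (φ := fun _ : Set I => ℝ)
          A).toAffineMap.comp (M3_aff (L C))) k = (∑ A, M3_aff (L C) k A • R.b A) j := by
        simp [Finset.sum_apply, mul_comm]
      rw [h2]
      rfl
    rw [e]
    exact h1
  · intro k hk
    have hB := R.t_spec k hk
    obtain ⟨hb1, hb2, hb3, hb4, hb5⟩ := hB
    have hC1 : ∀ A ∈ Finset.univ.filter (fun A => R.t k A ≠ 0), A ∈ R.faces := by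
      intro A hA
      exact hb2 A (Finset.mem_filter.mp hA).2
    have hC2 : ∀ A ∈ Finset.univ.filter (fun A => R.t k A ≠ 0),
        ∀ B ∈ Finset.univ.filter (fun A => R.t k A ≠ 0), A ⊆ B ∨ B ⊆ A := by
      intro A hA B hB
      exact hb3 A B (Finset.mem_filter.mp hA).2 (Finset.mem_filter.mp hB).2
    refine ⟨⟨Finset.univ.filter (fun A => R.t k A ≠ 0), hC1, hC2⟩, ?_⟩
    set D : {C : Finset (Set I) // (∀ A ∈ C, A ∈ R.faces) ∧ ∀ A ∈ C, ∀ B ∈ C, A ⊆ B ∨ B ⊆ A} :=
      ⟨Finset.univ.filter (fun A => R.t k A ≠ 0), hC1, hC2⟩ with hD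
    have hbeta : M3_aff (L D) k = R.t k := by
      rw [M3_aff_apply]
      have h1 : ((k, 1) : Mk n) = ∑ A, R.t k A • ((R.b A, 1) : Mk n) := by
        refine Prod.ext ?_ ?_
        · rw [Prod.fst_sum]
          exact hb5.symm
        · rw [Prod.snd_sum]
          simp only [Prod.smul_snd, smul_eq_mul, mul_one]
          exact hb4.symm
      rw [h1, map_sum]
      funext B
      rw [Finset.sum_apply]
      have h2 : ∀ A : Set I, (L D (R.t k A • ((R.b A, 1) : Mk n))) B =
          if B = A then R.t k A else 0 := by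
        intro A
        rw [map_smul, Pi.smul_apply, smul_eq_mul]
        by_cases hA : R.t k A = 0
        · rw [hA, zero_mul]
          simp
        · rw [hL D A (Finset.mem_filter.mpr ⟨Finset.mem_univ A, hA⟩)]
          simp
      rw [Finset.sum_congr rfl fun A _ => h2 A]
      simp
    refine ⟨?_, ?_⟩
    · rw [Set.mem_preimage, hbeta]
      refine ⟨hb1, fun A hA => ?_, hb4⟩
      by_contra hne
      exact hA (Finset.mem_filter.mpr ⟨Finset.mem_univ A, hne⟩)
    · rw [Set.mem_setOf_eq, hbeta]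
      exact hb5
  · rintro C x _ ⟨⟨h1, h2, h3⟩, h4⟩
    refine R.t_eq x _ ⟨h1, fun A hA => C.2.1 A ?_, fun A B hA hB => C.2.2 A ?_ B ?_, h3, h4⟩
    · by_contra hn; exact hA (h2 A hn)
    · by_contra hn; exact hA (h2 A hn)
    · by_contra hn; exact hB (h2 B hn)

end Pool.Agent.MP_455d73_gt.CS
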